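import Pool.Agent.helper25.FB.TSa

/-!
TS: tightness at scale `s` (assembly of the parameters)
-/

set_option autoImplicit false

open scoped BigOperators Topology
open Filter MeasureTheory

namespace Pool.Agent.helper66.FB

open Finset
open Pool.Agent.helper72.UT (IsFor dep pth rt fors Reg lz PathTo)
open Pool.Agent.helper20.HP (ind HW W Par cc run lel lst lazyP tmix ustE height vol Setup CZ CP IsKer Zq)
open Pool.Agent.helper90.FN (EF glue dn sk avJ Hit BGoal)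

variable {V : Type} [Fintype V] [DecidableEq V]

theorem TS_CZ (θ : ℝ) : 0 ≤ CZ θ := by
  unfold CZ
  positivity

/-- step 3: mass of the bad words -/
theorem TS_step3 (hSN : SN_stmt) (hBM : BM_stmt) (hBL : BL_stmt) (hLC : LC_stmt) (hNF : NF_stmt)
    (hK1 : K1_stmt) (θ : ℝ) (G : SimpleGraph V) (d : ℕ) (K : HW V) (h₀ : ℕ)
    (hS : Std G d K θ h₀) (s : ℕ) (hs : 2 ≤ s)
    (hsL : s ^ 64 * h₀ ≤ Nat.sqrt (Fintype.card V)) (C₁ : ℕ) (hC : θ ≤ C₁) (B : Finset V)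
    (hB : Hit K B (C₁ * s ^ 40 * Nat.sqrt (Fintype.card V))) (N : ℕ) :
    kws K B N (fun y l => ind (Nat.sqrt (Fintype.card V) / s ^ 32 ≤ l.length ∧
      (top (Nat.sqrt (Fintype.card V) / s ^ 32) y l).card <
        Nat.sqrt (Fintype.card V) / s ^ 32 / s)) ≤
      Fintype.card V * ((CZ θ * (θ + 3) + (2 + 1024 * (C₁ : ℝ) ^ 2)) / s) := by
  have hn := TS_nums G d K θ h₀ hS s hs hsL
  have hθ := hS.par.one_le
  have hst := TS_step2 hSN θ G d K h₀ hS s hs hsL C₁ hC B hB N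
  set n := Fintype.card V with hnV
  set L := Nat.sqrt n with hLV
  have hL0 : (0 : ℝ) < L := by linarith [hn.L1]
  have hn0 : (0 : ℝ) < n := by nlinarith [hn.nL, hn.L1]
  have hs0 : (0 : ℝ) < s := by linarith [hn.s2]
  have hs1 : (1 : ℝ) ≤ s := by linarith [hn.s2]
  have hs32L : s ^ 32 ≤ L :=
    le_trans (Nat.pow_le_pow_right (by omega) (by norm_num)) hn.sLn
  obtain ⟨d1, d2, d3⟩ := TS_div L (s ^ 32) (by positivity) hs32L
  push_cast at d2 d3
  set m := L / s ^ 32 with hm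
  have hsm : s ≤ m := by
    rw [hm, Nat.le_div_iff_mul_le (by positivity)]
    refine le_trans ?_ hn.sLn
    calc s * s ^ 32 = s ^ 33 := by ring
      _ ≤ s ^ 64 := Nat.pow_le_pow_right (by omega) (by norm_num)
  obtain ⟨a1, a2, a3⟩ := TS_div m s (by omega) hsm
  set a := m / s with ha
  have hm0 : (0 : ℝ) < m := by exact_mod_cast (by omega : 0 < m)
  have h4m : 4 * m ≤ L := by
    have h1 : m * s ^ 32 ≤ L := Nat.div_mul_le_self _ _
    have h2 : 4 ≤ s ^ 32 := by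
      calc 4 = 2 ^ 2 := by norm_num
        _ ≤ 2 ^ 32 := by norm_num
        _ ≤ s ^ 32 := Nat.pow_le_pow_left hs 32
    calc 4 * m = m * 4 := by ring
      _ ≤ m * s ^ 32 := Nat.mul_le_mul_left _ h2
      _ ≤ L := h1
  set k := s ^ 32 * L with hk
  have hk1 : 1 ≤ k := Nat.mul_pos (by positivity) (by have := hn.L1n; omega)
  set Λ : ℝ := ((2 * k : ℕ) : ℝ) with hΛ
  have hΛ1 : 1 ≤ Λ := by
    rw [hΛ]
    exact_mod_cast (by omega : 1 ≤ 2 * k)
  have h1 := hBM hLC hNF hK1 V K θ h₀ hS.par B m a N Λ (by omega) h4m (by linarith)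
  have h2 := hBL V K B (2 * h₀) N Λ hΛ1
  have h3 : (fun (y : V) (l : List V) => ind (Λ < ((run [y] l).length : ℝ))) =
      fun y l => ind (2 * k < (run [y] l).length) := by
    funext y l
    have : (Λ < ((run [y] l).length : ℝ)) = (2 * k < (run [y] l).length) := by
      rw [hΛ]
      exact propext Nat.cast_lt
    rw [this]
  rw [h3] at h2
  have h4 := h1.trans (add_le_add_right (h2.trans hst) _)
  rw [← hnV] at h4
  refine h4.trans ?_
  rw [← mul_add]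
  refine mul_le_mul_of_nonneg_left ?_ hn0.le
  have e1 : (a : ℝ) / m ≤ 1 / s := by
    rw [div_le_div_iff₀ hm0 hs0]
    linarith
  have e2 : θ + (m : ℝ) * Λ * (3 / (2 * (n : ℝ))) ≤ θ + 3 := by
    have h5 : (m : ℝ) * Λ ≤ 2 * n := by
      rw [hΛ, hk]
      push_cast
      calc (m : ℝ) * (2 * ((s : ℝ) ^ 32 * (L : ℝ))) = 2 * (m * (s : ℝ) ^ 32) * (L : ℝ) := by ring
        _ ≤ 2 * (L : ℝ) * L := by
            refine mul_le_mul_of_nonneg_right ?_ hL0.le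
            linarith
        _ ≤ 2 * (n : ℝ) := by nlinarith [hn.nL]
    have h6 : (m : ℝ) * Λ * (3 / (2 * (n : ℝ))) ≤ (2 * n) * (3 / (2 * (n : ℝ))) :=
      mul_le_mul_of_nonneg_right h5 (by positivity)
    have h7 : (2 * (n : ℝ)) * (3 / (2 * (n : ℝ))) = 3 := by field_simp
    linarith
  have hCZ := TS_CZ θ
  have e3 : CZ θ * ((a : ℝ) / m) * (θ + (m : ℝ) * Λ * (3 / (2 * (n : ℝ)))) ≤
      CZ θ * (θ + 3) / s := by
    calc CZ θ * ((a : ℝ) / m) * (θ + (m : ℝ) * Λ * (3 / (2 * (n : ℝ))))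
        ≤ CZ θ * (1 / s) * (θ + 3) := by
          refine mul_le_mul (mul_le_mul_of_nonneg_left e1 hCZ) e2 ?_ (by positivity)
          have : 0 ≤ Λ := by linarith
          positivity
      _ = CZ θ * (θ + 3) / s := by ring
  have e4 : (CZ θ * (θ + 3) + (2 + 1024 * (C₁ : ℝ) ^ 2)) / (s : ℝ) =
      CZ θ * (θ + 3) / s + (2 + 1024 * (C₁ : ℝ) ^ 2) / s := by ring
  rw [e4]
  linarith

/-- step 4: one vertex -/
theorem TS_step4 (hIN : IN_stmt) (hSS : SS_stmt) (hQE : QE_stmt) (hWI : WI_stmt) (hK2 : K2_stmt)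
    (hEC : EC_stmt) (hES : ES_stmt) (hK1 : K1_stmt) (θ : ℝ) (G : SimpleGraph V) (d : ℕ)
    (K : HW V) (h₀ : ℕ) (hS : Std G d K θ h₀) (s : ℕ) (hs : 2 ≤ s)
    (hsL : s ^ 64 * h₀ ≤ Nat.sqrt (Fintype.card V)) (B : Finset V) (hBne : B.Nonempty)
    (P : ℝ) (hP : 0 ≤ P)
    (hbad : ∀ N, kws K B N (fun y l => ind (Nat.sqrt (Fintype.card V) / s ^ 32 ≤ l.length ∧
      (top (Nat.sqrt (Fintype.card V) / s ^ 32) y l).card <
        Nat.sqrt (Fintype.card V) / s ^ 32 / s)) ≤ Fintype.card V * (P / s)) :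
    ∃ κ : ℝ, 1 / (512 * (s : ℝ) ^ 67) ≤ κ ∧
      it G 1 (fun D => ind (Q K D (Nat.sqrt (Fintype.card V) / s ^ 32) < κ)) B ≤
        (2 * (1 + P) + (2 * θ + 4)) / s := by
  have hn := TS_nums G d K θ h₀ hS s hs hsL
  have hθ := hS.par.one_le
  set n := Fintype.card V with hnV
  set L := Nat.sqrt n with hLV
  have hL0 : (0 : ℝ) < L := by linarith [hn.L1]
  have hn0 : (0 : ℝ) < n := by nlinarith [hn.nL, hn.L1]
  have hs0 : (0 : ℝ) < s := by linarith [hn.s2]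
  have hs1 : (1 : ℝ) ≤ s := by linarith [hn.s2]
  have hs32L : s ^ 32 ≤ L :=
    le_trans (Nat.pow_le_pow_right (by omega) (by norm_num)) hn.sLn
  obtain ⟨d1, d2, d3⟩ := TS_div L (s ^ 32) (by positivity) hs32L
  push_cast at d2 d3
  set m := L / s ^ 32 with hm
  have hsm : s ≤ m := by
    rw [hm, Nat.le_div_iff_mul_le (by positivity)]
    refine le_trans ?_ hn.sLn
    calc s * s ^ 32 = s ^ 33 := by ring
      _ ≤ s ^ 64 := Nat.pow_le_pow_right (by omega) (by norm_num)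
  obtain ⟨a1, a2, a3⟩ := TS_div m s (by omega) hsm
  set a := m / s with ha
  have hm0 : (0 : ℝ) < m := by exact_mod_cast (by omega : 0 < m)
  have hm1 : (1 : ℝ) ≤ m := by exact_mod_cast (by omega : 1 ≤ m)
  have ha1 : (1 : ℝ) ≤ a := by exact_mod_cast a1
  have h4m : 4 * m ≤ L := by
    have h1 : m * s ^ 32 ≤ L := Nat.div_mul_le_self _ _
    have h2 : 4 ≤ s ^ 32 := by
      calc 4 = 2 ^ 2 := by norm_num
        _ ≤ 2 ^ 32 := by norm_num
        _ ≤ s ^ 32 := Nat.pow_le_pow_left hs 32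
    calc 4 * m = m * 4 := by ring
      _ ≤ m * s ^ 32 := Nat.mul_le_mul_left _ h2
      _ ≤ L := h1
  have h4m' : 4 * (m : ℝ) ≤ L := by exact_mod_cast h4m
  set E : ℝ := m * s with hE
  have hE0 : 0 < E := by positivity
  have hmn : (m : ℝ) * m ≤ n := by nlinarith [hn.nL]
  have ham : (a : ℝ) ≤ m := by nlinarith
  set κ : ℝ := ((m : ℝ) + 1) * (((1 : ℕ) : ℝ) * a / 2) ^ 2 / (2 * (n : ℝ) * E) with hκ
  have h := hIN hSS hQE hWI hK2 hEC hES hK1 V G d K θ h₀ hS.reg hS.ker hS.par B m a 1 κ (P / s) E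
    hBne h4m a1 le_rfl hE0 (by positivity) hκ (by
      intro D hD N
      rcases hD with rfl | ⟨_, h2⟩
      · exact hbad N
      · omega)
  refine ⟨κ, ?_, ?_⟩
  · rw [hκ, div_le_div_iff₀ (by positivity) (by positivity)]
    push_cast
    -- L ≤ 4 s^33 a
    have h5 : (L : ℝ) ≤ 4 * (s : ℝ) ^ 33 * a := by
      calc (L : ℝ) ≤ 2 * (s : ℝ) ^ 32 * m := d3
        _ ≤ 2 * (s : ℝ) ^ 32 * (2 * s * a) := mul_le_mul_of_nonneg_left a3 (by positivity)
        _ = 4 * (s : ℝ) ^ 33 * a := by ring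
    have h6 : (L : ℝ) * L ≤ (4 * (s : ℝ) ^ 33 * a) * (4 * (s : ℝ) ^ 33 * a) :=
      mul_le_mul h5 h5 hL0.le (by positivity)
    have h7 : (n : ℝ) ≤ 64 * (s : ℝ) ^ 66 * a ^ 2 := by
      have := hn.nU
      nlinarith
    calc 1 * (2 * (n : ℝ) * E) ≤ 1 * (2 * (64 * (s : ℝ) ^ 66 * a ^ 2) * E) := by
          have : 0 ≤ E := hE0.le
          nlinarith
      _ = m * (1 * a / 2) ^ 2 * (512 * (s : ℝ) ^ 67) := by rw [hE]; ring
      _ ≤ ((m : ℝ) + 1) * (1 * a / 2) ^ 2 * (512 * (s : ℝ) ^ 67) := by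
          refine mul_le_mul_of_nonneg_right ?_ (by positivity)
          refine mul_le_mul_of_nonneg_right ?_ (by positivity)
          linarith
  · refine h.trans ?_
    have k1 : κ ≤ 1 / s := by
      rw [hκ, div_le_div_iff₀ (by positivity) hs0]
      push_cast
      have h8 : (a : ℝ) ^ 2 ≤ n := by nlinarith
      calc ((m : ℝ) + 1) * (1 * a / 2) ^ 2 * s = ((m : ℝ) + 1) * s * (a ^ 2 / 4) := by ring
        _ ≤ ((m : ℝ) + 1) * s * (n / 4) := by
            refine mul_le_mul_of_nonneg_left ?_ (by positivity)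
            linarith
        _ ≤ (2 * m) * s * (n / 4) := by
            refine mul_le_mul_of_nonneg_right ?_ (by positivity)
            refine mul_le_mul_of_nonneg_right ?_ hs0.le
            linarith
        _ ≤ 1 * (2 * (n : ℝ) * E) := by
            rw [hE]
            have : 0 ≤ (m : ℝ) * s * n := by positivity
            nlinarith
    have k2 : ((1 : ℕ) : ℝ) * (2 * (m : ℝ) * θ + 2 * ((1 : ℕ) : ℝ) * a * m * ((m : ℝ) + 1) / n) /
        E ≤ (2 * θ + 4) / s := by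
      rw [div_le_div_iff₀ hE0 hs0]
      push_cast
      have h9 : 2 * 1 * (a : ℝ) * m * ((m : ℝ) + 1) / n ≤ 4 * m := by
        rw [div_le_iff₀ hn0]
        have h10 : (a : ℝ) * ((m : ℝ) + 1) ≤ 2 * n := by
          calc (a : ℝ) * ((m : ℝ) + 1) ≤ m * (2 * m) :=
                mul_le_mul ham (by linarith) (by positivity) hm0.le
            _ ≤ 2 * n := by linarith
        nlinarith
      rw [hE]
      have h11 : 1 * (2 * (m : ℝ) * θ + 2 * 1 * (a : ℝ) * m * ((m : ℝ) + 1) / n) ≤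
          2 * m * θ + 4 * m := by linarith
      calc 1 * (2 * (m : ℝ) * θ + 2 * 1 * (a : ℝ) * m * ((m : ℝ) + 1) / n) * s
          ≤ (2 * m * θ + 4 * m) * s := mul_le_mul_of_nonneg_right h11 hs0.le
        _ = (2 * θ + 4) * (m * s) := by ring
    have k3 : (2 * (1 + P) + (2 * θ + 4)) / (s : ℝ) =
        2 * (1 / s + P / s) + (2 * θ + 4) / s := by ring
    rw [k3]
    linarith

/-- the main case -/
theorem TS_core (hCMP : CMP_stmt) (hCN : CN_stmt) (hTV : TV_stmt) (hGB : GB_stmt)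
    (hQE : QE_stmt) (hQH : QH_stmt) (hSN : SN_stmt) (hBM : BM_stmt) (hBL : BL_stmt)
    (hIN : IN_stmt) (hLC : LC_stmt) (hNF : NF_stmt) (hK1 : K1_stmt) (hSS : SS_stmt)
    (hWI : WI_stmt) (hK2 : K2_stmt) (hEC : EC_stmt) (hES : ES_stmt) (θ : ℝ)
    (G : SimpleGraph V) (d : ℕ) (K : HW V) (h₀ : ℕ) (hS : Std G d K θ h₀) (s : ℕ) (o : V)
    (hs : 2 ≤ s) (hsL : s ^ 64 * h₀ ≤ Nat.sqrt (Fintype.card V)) :
    EF G {o} (fun f => ∑ v, ind (((2 * ((⌈385 * θ⌉₊ + 2050) * s ^ 41 *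
      Nat.sqrt (Fintype.card V)) : ℕ) : ℝ) < dep {o} f v)) ≤
      (2 * (1 + (CZ θ * (θ + 3) + (2 + 1024 * (⌈385 * θ⌉₊ : ℝ) ^ 2))) + (2 * θ + 4) + 2054) / s *
        Fintype.card V := by
  have hn := TS_nums G d K θ h₀ hS s hs hsL
  have hθ := hS.par.one_le
  obtain ⟨B, hBc, hBh⟩ := TS_step1 hGB hQE hQH θ G d K h₀ hS s hs hsL
  set C₁ : ℕ := ⌈385 * θ⌉₊ with hC₁
  have hC : θ ≤ (C₁ : ℝ) := by
    have h1 : 385 * θ ≤ (C₁ : ℝ) := Nat.le_ceil _
    linarith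
  set P : ℝ := CZ θ * (θ + 3) + (2 + 1024 * (C₁ : ℝ) ^ 2) with hP
  have hCZ := TS_CZ θ
  have hP0 : 0 ≤ P := by positivity
  have h3 := TS_step3 hSN hBM hBL hLC hNF hK1 θ G d K h₀ hS s hs hsL C₁ hC B hBh
  set n := Fintype.card V with hnV
  set L := Nat.sqrt n with hLV
  have hL0 : (0 : ℝ) < L := by linarith [hn.L1]
  have hn0 : (0 : ℝ) < n := by nlinarith [hn.nL, hn.L1]
  have hs0 : (0 : ℝ) < s := by linarith [hn.s2]
  have hs1 : (1 : ℝ) ≤ s := by linarith [hn.s2]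
  have hs40L : s ^ 40 ≤ L :=
    le_trans (Nat.pow_le_pow_right (by omega) (by norm_num)) hn.sLn
  obtain ⟨b1, b2, b3⟩ := TS_div L (s ^ 40) (by positivity) hs40L
  push_cast at b2 b3
  have hBne : B.Nonempty := by
    rw [← Finset.card_pos, hBc]
    omega
  obtain ⟨κ, hκ1, hκ2⟩ := TS_step4 hIN hSS hQE hWI hK2 hEC hES hK1 θ G d K h₀ hS s hs hsL B hBne
    P hP0 h3
  have hs32L : s ^ 32 ≤ L :=
    le_trans (Nat.pow_le_pow_right (by omega) (by norm_num)) hn.sLn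
  obtain ⟨d1, d2, d3⟩ := TS_div L (s ^ 32) (by positivity) hs32L
  push_cast at d2 d3
  set m := L / s ^ 32 with hm
  have hκ0 : 0 < κ := lt_of_lt_of_le (by positivity) hκ1
  -- Hit
  have hH' : ∀ D, κ ≤ Q K D m → Hit K D (2050 * s ^ 35 * L) := by
    intro D hD
    refine hQH V K D m h₀ _ κ hn.h1n hS.low hκ0 hD ?_
    push_cast
    have h4 : 2 / κ + 1 ≤ 1025 * (s : ℝ) ^ 67 := by
      have h5 : 2 / κ ≤ 1024 * (s : ℝ) ^ 67 := by
        rw [div_le_iff₀ hκ0]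
        have h6 : 1 / (512 * (s : ℝ) ^ 67) * (1024 * (s : ℝ) ^ 67) = 2 := by
          field_simp
          norm_num
        have h7 : 1 / (512 * (s : ℝ) ^ 67) * (1024 * (s : ℝ) ^ 67) ≤ κ * (1024 * (s : ℝ) ^ 67) :=
          mul_le_mul_of_nonneg_right hκ1 (by positivity)
        linarith
      have h8 : (1 : ℝ) ≤ (s : ℝ) ^ 67 := one_le_pow₀ hs1
      linarith
    have h5 : ((h₀ : ℝ) + m) * (s : ℝ) ^ 32 ≤ 2 * L := by
      have h6 : (h₀ : ℝ) * (s : ℝ) ^ 32 ≤ L := by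
        refine le_trans ?_ hn.sL
        rw [mul_comm]
        refine mul_le_mul_of_nonneg_right ?_ (by linarith [hn.h1])
        exact pow_le_pow_right₀ hs1 (by norm_num)
      linarith
    have h6 : (0 : ℝ) ≤ (h₀ : ℝ) + m := by positivity
    calc ((h₀ : ℝ) + m) * (2 / κ + 1) ≤ ((h₀ : ℝ) + m) * (1025 * (s : ℝ) ^ 67) :=
          mul_le_mul_of_nonneg_left h4 h6
      _ = 1025 * (s : ℝ) ^ 35 * (((h₀ : ℝ) + m) * (s : ℝ) ^ 32) := by ring
      _ ≤ 1025 * (s : ℝ) ^ 35 * (2 * L) := mul_le_mul_of_nonneg_left h5 (by positivity)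
      _ = _ := by ring
  -- CN
  set ℓ : ℕ := (C₁ + 2050) * s ^ 41 * L with hℓ
  have hj1 : s * (C₁ * s ^ 40 * L) ≤ ℓ := by
    rw [hℓ]
    calc s * (C₁ * s ^ 40 * L) = C₁ * (s ^ 41 * L) := by ring
      _ ≤ (C₁ + 2050) * (s ^ 41 * L) := Nat.mul_le_mul_right _ (by omega)
      _ = _ := by ring
  have hj2 : s * (2050 * s ^ 35 * L) ≤ ℓ := by
    rw [hℓ]
    calc s * (2050 * s ^ 35 * L) = 2050 * (s ^ 36 * L) := by ring
      _ ≤ (C₁ + 2050) * (s ^ 41 * L) := Nat.mul_le_mul (by omega)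
          (Nat.mul_le_mul_right _ (Nat.pow_le_pow_right (by omega) (by norm_num)))
      _ = _ := by ring
  have hcn := hCN V G d K hS.reg hS.ker B m _ _ s s ℓ κ hBne hBh hH' hj1 hj2
  have e1 := TS_half_pow s (by omega)
  have e2 : ((s : ℝ) * ((2050 * s ^ 35 * L : ℕ) : ℝ) + 1) * (B.card : ℝ) / (n : ℝ) ≤
      2051 / s := by
    rw [hBc, div_le_div_iff₀ hn0 hs0]
    push_cast
    set N := L / s ^ 40 with hN
    have h5 : (s : ℝ) * (2050 * (s : ℝ) ^ 35 * L) + 1 ≤ 2051 * (s : ℝ) ^ 36 * L := by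
      have : (1 : ℝ) ≤ (s : ℝ) ^ 36 * L := by
        have h6 : (1 : ℝ) ≤ (s : ℝ) ^ 36 := one_le_pow₀ hs1
        nlinarith [hn.L1]
      nlinarith
    have h6 : (0 : ℝ) ≤ (N : ℝ) := Nat.cast_nonneg _
    have h7 : (s : ℝ) ^ 37 ≤ (s : ℝ) ^ 40 := pow_le_pow_right₀ hs1 (by norm_num)
    calc ((s : ℝ) * (2050 * (s : ℝ) ^ 35 * L) + 1) * (N : ℝ) * s
        ≤ (2051 * (s : ℝ) ^ 36 * L) * (N : ℝ) * s :=
          mul_le_mul_of_nonneg_right (mul_le_mul_of_nonneg_right h5 h6) hs0.le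
      _ = 2051 * L * ((N : ℝ) * (s : ℝ) ^ 37) := by ring
      _ ≤ 2051 * L * ((N : ℝ) * (s : ℝ) ^ 40) :=
          mul_le_mul_of_nonneg_left (mul_le_mul_of_nonneg_left h7 h6) (by positivity)
      _ ≤ 2051 * L * L := mul_le_mul_of_nonneg_left b2 (by positivity)
      _ ≤ 2051 * n := by nlinarith [hn.nL]
  set C5 : ℝ := 2 * (1 + P) + (2 * θ + 4) + 2054 with hC5
  have hsum : ∑ x : V, ∑ y : V, (1 - EF G B (fun f => ind (∃ i i', i + i' ≤ 2 * ℓ ∧
      f^[i] x = f^[i'] y ∧ f^[i] x ∉ B))) ≤ (n : ℝ) ^ 2 * (C5 / s) := by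
    refine hcn.trans ?_
    refine mul_le_mul_of_nonneg_left ?_ (by positivity)
    have e3 : C5 / (s : ℝ) = (2 * (1 + P) + (2 * θ + 4)) / s + 1 / s + 2051 / s + 2 * (1 / s) := by
      rw [hC5]
      ring
    rw [e3]
    linarith
  -- comparison
  have hcmp : ∀ x y : V, EF G {y} (fun f => ind (((2 * ℓ : ℕ) : ℝ) < dep {y} f x)) ≤
      1 - EF G B (fun f => ind (∃ i i', i + i' ≤ 2 * ℓ ∧ f^[i] x = f^[i'] y ∧ f^[i] x ∉ B)) := by
    intro x y
    have h5 := hCMP V G d K hS.reg hS.ker B x y (2 * ℓ) hBne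
    have h6 := TS_EF_compl G {y} (fun f => ((2 * ℓ : ℕ) : ℝ) < dep {y} f x)
      (fun f => dep {y} f x ≤ 2 * ℓ) (by
        intro f h7 h8
        have h9 : 2 * ℓ < dep {y} f x := by exact_mod_cast h7
        omega)
    linarith
  have htv : ∀ y : V, EF G {y} (fun f => ∑ v, ind (((2 * ℓ : ℕ) : ℝ) < dep {y} f v)) =
      EF G {o} (fun f => ∑ v, ind (((2 * ℓ : ℕ) : ℝ) < dep {o} f v)) := fun y =>
    hTV V G d K hS.reg hS.ker y o _
  have hfin : (n : ℝ) * EF G {o} (fun f => ∑ v, ind (((2 * ℓ : ℕ) : ℝ) < dep {o} f v)) ≤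
      (n : ℝ) ^ 2 * (C5 / s) := by
    calc (n : ℝ) * EF G {o} (fun f => ∑ v, ind (((2 * ℓ : ℕ) : ℝ) < dep {o} f v))
        = ∑ y : V, EF G {y} (fun f => ∑ v, ind (((2 * ℓ : ℕ) : ℝ) < dep {y} f v)) := by
          rw [Finset.sum_congr rfl (fun y _ => htv y), Finset.sum_const, nsmul_eq_mul,
            Finset.card_univ]
      _ = ∑ y : V, ∑ x : V, EF G {y} (fun f => ind (((2 * ℓ : ℕ) : ℝ) < dep {y} f x)) :=
          Finset.sum_congr rfl fun y _ => TS_EF_sum G {y} _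
      _ = ∑ x : V, ∑ y : V, EF G {y} (fun f => ind (((2 * ℓ : ℕ) : ℝ) < dep {y} f x)) :=
          Finset.sum_comm
      _ ≤ ∑ x : V, ∑ y : V, (1 - EF G B (fun f => ind (∃ i i', i + i' ≤ 2 * ℓ ∧
            f^[i] x = f^[i'] y ∧ f^[i] x ∉ B))) :=
          Finset.sum_le_sum fun x _ => Finset.sum_le_sum fun y _ => hcmp x y
      _ ≤ _ := hsum
  have hfin2 : (n : ℝ) * EF G {o} (fun f => ∑ v, ind (((2 * ℓ : ℕ) : ℝ) < dep {o} f v)) ≤
      n * (C5 / s * n) := by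
    refine hfin.trans (le_of_eq ?_)
    ring
  exact le_of_mul_le_mul_left hfin2 hn0

theorem TS (hCMP : CMP_stmt) (hCN : CN_stmt) (hTV : TV_stmt) (hGB : GB_stmt)
    (hQE : QE_stmt) (hQH : QH_stmt) (hSN : SN_stmt) (hBM : BM_stmt) (hBL : BL_stmt)
    (hIN : IN_stmt) (hLC : LC_stmt) (hNF : NF_stmt) (hK1 : K1_stmt) (hSS : SS_stmt)
    (hWI : WI_stmt) (hK2 : K2_stmt) (hEC : EC_stmt) (hES : ES_stmt) : TS_stmt := by
  intro θ
  set C5 : ℝ := 2 * (1 + (CZ θ * (θ + 3) + (2 + 1024 * (⌈385 * θ⌉₊ : ℝ) ^ 2))) +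
    (2 * θ + 4) + 2054 with hC5
  set C6 : ℝ := 2 * ((⌈385 * θ⌉₊ : ℝ) + 2050) with hC6
  refine ⟨max 1 (max C5 C6), lt_of_lt_of_le one_pos (le_max_left _ _), ?_⟩
  intro V _ _ G d K h₀ hS s o hs1 hsL
  set C : ℝ := max 1 (max C5 C6) with hCd
  have hCC1 : 1 ≤ C := le_max_left _ _
  have hCC5 : C5 ≤ C := (le_max_left _ _).trans (le_max_right _ _)
  have hCC6 : C6 ≤ C := (le_max_right _ _).trans (le_max_right _ _)
  have hcard : (0 : ℝ) ≤ Fintype.card V := Nat.cast_nonneg _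
  rcases Nat.lt_or_ge s 2 with h | h
  · have h1 : s = 1 := by omega
    subst h1
    have h2 : EF G {o} (fun f => ∑ v, ind (C * ((1 : ℕ) : ℝ) ^ 41 *
        Nat.sqrt (Fintype.card V) < dep {o} f v)) ≤ Fintype.card V := by
      refine TS_EF_const G {o} _ hcard _ fun f => ?_
      calc ∑ v, ind (C * ((1 : ℕ) : ℝ) ^ 41 * Nat.sqrt (Fintype.card V) < dep {o} f v)
          ≤ ∑ v : V, (1 : ℝ) := Finset.sum_le_sum fun v _ => TS_ind_le_one _
        _ = Fintype.card V := by rw [Finset.sum_const, nsmul_eq_mul, mul_one, Finset.card_univ]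
    refine h2.trans ?_
    rw [Nat.cast_one, div_one]
    nlinarith
  · have h2 := TS_core hCMP hCN hTV hGB hQE hQH hSN hBM hBL hIN hLC hNF hK1 hSS hWI hK2 hEC hES
      θ G d K h₀ hS s o h hsL
    rw [← hC5] at h2
    have hs0 : (0 : ℝ) < s := by exact_mod_cast (by omega : 0 < s)
    refine le_trans (TS_EF_mono G {o} _ _ fun f => ?_) (h2.trans ?_)
    · refine Finset.sum_le_sum fun v _ => TS_ind_mono fun h3 => ?_
      refine lt_of_le_of_lt ?_ h3
      push_cast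
      have h4 : (0 : ℝ) ≤ (s : ℝ) ^ 41 * Nat.sqrt (Fintype.card V) := by positivity
      calc 2 * (((⌈385 * θ⌉₊ : ℝ) + 2050) * (s : ℝ) ^ 41 * Nat.sqrt (Fintype.card V))
          = C6 * ((s : ℝ) ^ 41 * Nat.sqrt (Fintype.card V)) := by rw [hC6]; ring
        _ ≤ C * ((s : ℝ) ^ 41 * Nat.sqrt (Fintype.card V)) :=
            mul_le_mul_of_nonneg_right hCC6 h4
        _ = _ := by ring
    · refine mul_le_mul_of_nonneg_right ?_ hcard
      exact div_le_div_of_nonneg_right hCC5 hs0.le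

end Pool.Agent.helper66.FB
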