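import Pool.Agent.helper25.FB.AllT

/-!
# MP_bf63dc_nt, uniformly in `c`: almost all `b`, with the counts of integers prime to `c`
-/

namespace Pool.Agent.helper25.FB

open Finset Real Pool.Agent.helper39.MT Pool.Agent.helper85.FC Pool.Agent.helper85.QC

theorem PC_lower {C : ℕ} (hC : 0 < C) {X : ℕ} (hX : 2 * C ≤ X) :
    (Nat.totient C : ℝ) / C * X / 2 ≤ #(PC C X) := by
  have h1 := CC_lower (P := C) (m := 1) hC one_pos (by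
    refine Nat.eq_one_of_dvd_one ?_
    exact cs_dvd C 1) X
  have h2 : CC C 1 X ⊆ PC C X := by
    intro b hb
    rw [mem_CC] at hb
    rw [mem_PC]
    refine ⟨hb.1, coprime_of_cs hC dvd_rfl hb.1.1 ?_⟩
    rw [hb.2]
    exact Nat.coprime_one_left C
  have h3 : (#(CC C 1 X) : ℝ) ≤ #(PC C X) := by exact_mod_cast card_le_card h2
  have hCr : (0 : ℝ) < C := by exact_mod_cast hC
  have h4 : (2 : ℝ) * C ≤ X := by exact_mod_cast hX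
  have h5 : (Nat.totient C : ℝ) ≤ (Nat.totient C : ℝ) / C * X / 2 := by
    have h6 : (0 : ℝ) ≤ Nat.totient C := Nat.cast_nonneg _
    calc (Nat.totient C : ℝ) = (Nat.totient C : ℝ) / C * (2 * C) / 2 := by field_simp
      _ ≤ _ := by gcongr
  have h7 : Pool.Agent.helper85.QC.dens C 1 = (Nat.totient C : ℝ) / C := by
    unfold Pool.Agent.helper85.QC.dens
    simp
  rw [h7] at h1
  linarith

theorem PC_upper2 {C : ℕ} (hC : 0 < C) {X : ℕ} (hX : 2 * C ≤ X) :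
    (#(PC C X) : ℝ) ≤ 2 * ((Nat.totient C : ℝ) / C * X) := by
  have h1 := PC_upper hC X
  have hCr : (0 : ℝ) < C := by exact_mod_cast hC
  have h4 : (C : ℝ) ≤ X := by exact_mod_cast (by omega : C ≤ X)
  have h5 : (Nat.totient C : ℝ) ≤ (Nat.totient C : ℝ) / C * X := by
    have h6 : (0 : ℝ) ≤ Nat.totient C := Nat.cast_nonneg _
    calc (Nat.totient C : ℝ) = (Nat.totient C : ℝ) / C * C := by field_simp
      _ ≤ _ := by gcongr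
  linarith

open Classical in
/-- **Almost all `b`**, with the counts of integers prime to `c`. -/
theorem almost_allU {ε : ℝ} (hε : 0 < ε) (z : ℕ) : ∃ K : ℕ, ∃ δ : ℝ, 0 < δ ∧
    ∀ c : ℤ, c ≠ 0 →
    (∀ N : ℕ, K * c.natAbs ^ 2 ≤ N →
    (#{b ∈ PC c.natAbs N | ¬ ∃ w t : ℕ, 0 < w ∧ w ≤ K ∧ 0 < t ∧ t ≤ K ∧ GT z t ∧
      (∀ p : ℕ, p.Prime → p ∣ t → (p : ℤ) ∣ c) ∧
      δ * #(PC c.natAbs N) ≤ {a : ℕ | a ≤ K * N ∧ TrueCase a (w * b) (c * t)}.ncard} : ℝ) ≤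
      ε * #(PC c.natAbs N)) ∧
    ∃ N₀ : ℕ, ∀ N : ℕ, N₀ ≤ N →
    (#{b ∈ PC c.natAbs N | ¬ ∃ w t : ℕ, 0 < w ∧ w ≤ K ∧ 0 < t ∧ t ≤ K ∧ GT z t ∧
      (∀ p : ℕ, p.Prime → p ∣ t → (p : ℤ) ∣ c) ∧ ∀ X₀ : ℕ, ∃ X : ℕ, X₀ ≤ X ∧
      δ * #(PC c.natAbs X) ≤ {a : ℕ | a ≤ X ∧ TrueCase a (w * b) (c * t)}.ncard} : ℝ) ≤
      ε * #(PC c.natAbs N) := by
  obtain ⟨K, hK2, δ, hδ, H⟩ := almost_allT (ε := ε / 2) (by positivity) z
  refine ⟨K, δ / 2, by positivity, fun c hc => ?_⟩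
  have hC : 0 < c.natAbs := Int.natAbs_pos.2 hc
  obtain ⟨H1, N₀, H2⟩ := H c hc
  set C := c.natAbs with hCdef
  have hCC : C ≤ C ^ 2 := Nat.le_self_pow (by norm_num) C
  have h2C : 2 * C ≤ K * C ^ 2 := Nat.mul_le_mul hK2 hCC
  constructor
  · intro N hN
    have h1 := PC_lower hC (h2C.trans hN)
    have h2 := PC_upper2 hC (h2C.trans hN)
    refine le_trans ?_ ((H1 N hN).trans (by nlinarith))
    have h3 : {b ∈ PC C N | ¬ ∃ w t : ℕ, 0 < w ∧ w ≤ K ∧ 0 < t ∧ t ≤ K ∧ GT z t ∧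
      (∀ p : ℕ, p.Prime → p ∣ t → (p : ℤ) ∣ c) ∧
      δ / 2 * #(PC C N) ≤ {a : ℕ | a ≤ K * N ∧ TrueCase a (w * b) (c * t)}.ncard} ⊆
      {b ∈ PC C N | ¬ ∃ w t : ℕ, 0 < w ∧ w ≤ K ∧ 0 < t ∧ t ≤ K ∧ GT z t ∧
      (∀ p : ℕ, p.Prime → p ∣ t → (p : ℤ) ∣ c) ∧
      δ * ((Nat.totient C : ℝ) / C * N) ≤
        {a : ℕ | a ≤ K * N ∧ TrueCase a (w * b) (c * t)}.ncard} := by
      intro b hb
      rw [mem_filter] at hb ⊢
      refine ⟨hb.1, fun ⟨w, t, e1, e2, e3, e4, e5, e6, e7⟩ => hb.2 ⟨w, t, e1, e2, e3, e4, e5, e6, ?_⟩⟩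
      refine le_trans ?_ e7
      nlinarith
    exact_mod_cast card_le_card h3
  · refine ⟨max N₀ (2 * C), fun N hN => ?_⟩
    have h1 := PC_lower hC ((le_max_right _ _).trans hN)
    refine le_trans ?_ ((H2 N ((le_max_left _ _).trans hN)).trans (by nlinarith))
    have h3 : {b ∈ PC C N | ¬ ∃ w t : ℕ, 0 < w ∧ w ≤ K ∧ 0 < t ∧ t ≤ K ∧ GT z t ∧
      (∀ p : ℕ, p.Prime → p ∣ t → (p : ℤ) ∣ c) ∧ ∀ X₀ : ℕ, ∃ X : ℕ, X₀ ≤ X ∧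
      δ / 2 * #(PC C X) ≤ {a : ℕ | a ≤ X ∧ TrueCase a (w * b) (c * t)}.ncard} ⊆
      {b ∈ PC C N | ¬ ∃ w t : ℕ, 0 < w ∧ w ≤ K ∧ 0 < t ∧ t ≤ K ∧ GT z t ∧
      (∀ p : ℕ, p.Prime → p ∣ t → (p : ℤ) ∣ c) ∧ ∀ X₀ : ℕ, ∃ X : ℕ, X₀ ≤ X ∧
      δ * ((Nat.totient C : ℝ) / C * X) ≤
        {a : ℕ | a ≤ X ∧ TrueCase a (w * b) (c * t)}.ncard} := by
      intro b hb
      rw [mem_filter] at hb ⊢
      refine ⟨hb.1, fun ⟨w, t, e1, e2, e3, e4, e5, e6, e7⟩ =>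
        hb.2 ⟨w, t, e1, e2, e3, e4, e5, e6, fun X₀ => ?_⟩⟩
      obtain ⟨X, hX, h4⟩ := e7 (max X₀ (2 * C))
      refine ⟨X, (le_max_left _ _).trans hX, le_trans ?_ h4⟩
      have h5 := PC_upper2 hC ((le_max_right _ _).trans hX)
      nlinarith
    exact_mod_cast card_le_card h3

end Pool.Agent.helper25.FB
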