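import Pool.Agent.helper25.FB.Main
import Pool.Agent.helper85.QC.Core

/-!
# MP_bf63dc_nt, uniformly in `c`: the core with five clusters separated modulo small primes of `c`
-/

namespace Pool.Agent.helper25.FB

open Finset Pool.Agent.helper39.MT Pool.Agent.helper85.FC Pool.Agent.helper85.QC

/-- the primes `≤ z` dividing `c` -/
def EP (z : ℕ) (c : ℤ) : Finset ℕ := {p ∈ (Finset.range (z + 1)).filter Nat.Prime | p ∣ c.natAbs}

theorem mem_EP {z : ℕ} {c : ℤ} {p : ℕ} : p ∈ EP z c ↔ (p ≤ z ∧ p.Prime) ∧ p ∣ c.natAbs := by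
  rw [EP, mem_filter, mem_filter, mem_range, Nat.lt_succ_iff]

/-- `t = t₁ t₂` with `t₁ ≤ 4` and all prime factors of `t₂` greater than `z`. -/
def GT (z t : ℕ) : Prop := ∃ t₁ t₂ : ℕ, t = t₁ * t₂ ∧ t₁ ≤ 4 ∧ ∀ p : ℕ, p.Prime → p ∣ t₂ → z < p

/-- `y` and `x` occur, up to factors `u, v ≤ K` with `m ∣ v`, and `c` up to a factor `t ≤ K` composed
of primes dividing `c`, whose part composed of primes `≤ z` is at most `4`, in the true case
`(u y, v x, c t)`. -/
def LinkT (z : ℕ) (c : ℤ) (m K x y : ℕ) : Prop :=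
  ∃ u v t : ℕ, 0 < u ∧ u ≤ K ∧ 0 < v ∧ v ≤ K ∧ m ∣ v ∧ 0 < t ∧ t ≤ K ∧ GT z t ∧
    (∀ p : ℕ, p.Prime → p ∣ t → (p : ℤ) ∣ c) ∧ TrueCase (u * y) (v * x) (c * t)

/-- the local conditions for the forms `(n + c h_i)/(h_i' A_i)`, `h_i'` the part of `h_i` prime
to `c`. -/
theorem core_localT {k : ℕ} (h : Fin k → ℕ) (hh0 : ∀ i, 0 < h i) (hmono : StrictMono h)
    (c : ℤ) (hc : c ≠ 0)
    (hdvd : ∀ i j, i < j → cf c.natAbs (h j - h i) ∣ h i)
    (A : Fin k → ℕ) (hA0 : ∀ i, 0 < A i) (hAh : ∀ i l, Nat.Coprime (A i) (h l))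
    (hAc : ∀ i, IsCoprime (A i : ℤ) c)
    (hAA : ∀ i j, i ≠ j → Nat.Coprime (A i) (A j)) (p : ℕ) (hp : p.Prime) :
    ∃ n : ℤ, ∀ i, ((p ^ (cf c.natAbs (h i) * A i).factorization p : ℕ) : ℤ) ∣ n + c * h i ∧
      ¬ ((p ^ ((cf c.natAbs (h i) * A i).factorization p + 1) : ℕ) : ℤ) ∣ n + c * h i := by
  have hC : 0 < c.natAbs := Int.natAbs_pos.2 hc
  have hfac : ∀ i, (cf c.natAbs (h i) * A i).factorization p =
      (if p ∣ c.natAbs then 0 else (h i).factorization p) + (A i).factorization p := by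
    intro i
    rw [Nat.factorization_mul (cf_pos (hh0 i)).ne' (hA0 i).ne', Finsupp.add_apply,
      cf_factorization hC (hh0 i) hp]
  have hpZ : Prime (p : ℤ) := Nat.prime_iff_prime_int.1 hp
  by_cases hpc' : p ∣ c.natAbs
  · have hpc : (p : ℤ) ∣ c := Int.natCast_dvd.2 hpc'
    refine ⟨1, fun i => ?_⟩
    have hpA : ¬ p ∣ A i := by
      intro hd
      exact hpZ.not_isUnit ((hAc i).isUnit_of_dvd' (by exact_mod_cast hd) hpc)
    rw [hfac i, if_pos hpc', Nat.factorization_eq_zero_of_not_dvd hpA]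
    refine ⟨by simp, fun hd => ?_⟩
    rw [zero_add, zero_add, pow_one] at hd
    have h1 : (p : ℤ) ∣ 1 := (Int.dvd_add_left (hpc.mul_right _)).1 hd
    exact hpZ.not_isUnit (isUnit_of_dvd_one h1)
  have hpc : ¬ (p : ℤ) ∣ c := fun hd => hpc' (Int.natCast_dvd.1 hd)
  simp only [if_neg hpc'] at hfac
  by_cases hex : ∃ l, p ∣ A l
  · obtain ⟨l, hl⟩ := hex
    have hph' : ∀ i, ¬ p ∣ h i := by
      intro i hd
      have h1 := Nat.dvd_gcd hl hd
      rw [hAh l i] at h1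
      exact hp.one_lt.ne' (Nat.dvd_one.1 h1)
    have hph : ∀ i, (h i).factorization p = 0 := fun i =>
      Nat.factorization_eq_zero_of_not_dvd (hph' i)
    refine ⟨-(c * h l) + ((p ^ (A l).factorization p : ℕ) : ℤ), fun i => ?_⟩
    rw [hfac i, hph i, zero_add]
    have hv : 1 ≤ (A l).factorization p := (hp.dvd_iff_one_le_factorization (hA0 l).ne').1 hl
    by_cases hil : i = l
    · subst hil
      rw [show -(c * (h i : ℤ)) + ((p ^ (A i).factorization p : ℕ) : ℤ) + c * h i =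
        ((p ^ (A i).factorization p : ℕ) : ℤ) by ring]
      refine ⟨dvd_rfl, fun hd => ?_⟩
      have h1 : p ^ ((A i).factorization p + 1) ∣ p ^ (A i).factorization p := by exact_mod_cast hd
      have h2 := (Nat.pow_dvd_pow_iff_le_right hp.one_lt).1 h1
      omega
    · have hAi : ¬ p ∣ A i := by
        intro hd
        have h1 := Nat.dvd_gcd hd hl
        rw [hAA i l hil] at h1
        exact hp.one_lt.ne' (Nat.dvd_one.1 h1)
      rw [Nat.factorization_eq_zero_of_not_dvd hAi]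
      refine ⟨by simp, fun hd => ?_⟩
      rw [zero_add, pow_one] at hd
      have h1 : (p : ℤ) ∣ ((p ^ (A l).factorization p : ℕ) : ℤ) := by
        exact_mod_cast dvd_pow_self p (by omega)
      have h2 : (p : ℤ) ∣ c * ((h i : ℤ) - h l) := by
        have h3 := dvd_sub hd h1
        rwa [show -(c * (h l : ℤ)) + ((p ^ (A l).factorization p : ℕ) : ℤ) + c * h i -
          ((p ^ (A l).factorization p : ℕ) : ℤ) = c * ((h i : ℤ) - h l) by ring] at h3
      rcases hpZ.dvd_or_dvd h2 with h3 | h3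
      · exact hpc h3
      · rcases lt_or_gt_of_ne hil with hlt | hlt
        · have h4 : p ∣ h l - h i := by
            have h5 : ((h l - h i : ℕ) : ℤ) = -((h i : ℤ) - h l) := by
              rw [Nat.cast_sub (hmono hlt).le]; ring
            have h6 : (p : ℤ) ∣ ((h l - h i : ℕ) : ℤ) := by rw [h5]; exact (dvd_neg.2 h3)
            exact_mod_cast h6
          exact hph' i ((dvd_cf h4 ((Nat.Prime.coprime_iff_not_dvd hp).2 hpc')).trans (hdvd i l hlt))
        · have h4 : p ∣ h i - h l := by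
            have h5 : ((h i - h l : ℕ) : ℤ) = (h i : ℤ) - h l := by
              rw [Nat.cast_sub (hmono hlt).le]
            have h6 : (p : ℤ) ∣ ((h i - h l : ℕ) : ℤ) := by rw [h5]; exact h3
            exact_mod_cast h6
          exact hph' l ((dvd_cf h4 ((Nat.Prime.coprime_iff_not_dvd hp).2 hpc')).trans (hdvd l i hlt))
  · push Not at hex
    refine ⟨0, fun i => ?_⟩
    have h0 : (A i).factorization p = 0 := Nat.factorization_eq_zero_of_not_dvd (hex i)
    rw [hfac i, h0, add_zero, zero_add]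
    constructor
    · exact dvd_mul_of_dvd_right (by exact_mod_cast Nat.ordProj_dvd (h i) p) c
    · intro hd
      have h1 : IsCoprime ((p ^ ((h i).factorization p + 1) : ℕ) : ℤ) c := by
        push_cast
        exact IsCoprime.pow_left ((Prime.coprime_iff_not_dvd hpZ).2 hpc)
      have h2 := h1.dvd_of_dvd_mul_left hd
      have h3 : p ^ ((h i).factorization p + 1) ∣ h i := by exact_mod_cast h2
      exact Nat.pow_succ_factorization_not_dvd (hh0 i).ne' hp h3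

/-- two values give a link. -/
theorem core_pairT {z : ℕ} {c : ℤ} (hc : c ≠ 0) {m K h₁ h₂ A₁ A₂ : ℕ} (hlt : h₁ < h₂) (h₁0 : 0 < h₁)
    (hd₁ : cf c.natAbs (h₂ - h₁) ∣ h₁) (hm : m ∣ h₁ / cf c.natAbs (h₂ - h₁))
    (hmc : IsCoprime (m : ℤ) c) (ht4 : GT z (cs c.natAbs (h₂ - h₁))) (hK₂ : h₂ ≤ K)
    (hA₁ : 0 < A₁) (hA₂ : 0 < A₂) (hA₁h : Nat.Coprime A₁ h₂) (hA₂h : Nat.Coprime A₂ h₁)
    (hAA : Nat.Coprime A₁ A₂)
    (hsol : InfSol (cf c.natAbs h₂ * A₂) (cf c.natAbs h₁ * A₁) (c * h₂ - c * h₁)) :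
    LinkT z c m K A₁ A₂ := by
  classical
  have hC : 0 < c.natAbs := Int.natAbs_pos.2 hc
  set C := c.natAbs with hCdef
  obtain ⟨D, hD⟩ : ∃ D, D = h₂ - h₁ := ⟨_, rfl⟩
  rw [← hD] at hd₁ hm ht4
  have hD0 : 0 < D := by omega
  obtain ⟨g, hg⟩ : ∃ g, g = cf C D := ⟨_, rfl⟩
  obtain ⟨t, ht⟩ : ∃ t, t = cs C D := ⟨_, rfl⟩
  rw [← hg] at hd₁ hm
  rw [← ht] at ht4
  have hg0 : 0 < g := by rw [hg]; exact cf_pos hD0
  have ht0 : 0 < t := by rw [ht]; exact cs_pos hD0
  have hgt : D = g * t := by rw [hg, ht, cf_mul_cs]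
  have hgC : Nat.Coprime g C := by rw [hg]; exact cf_coprime hC hD0
  have htp : ∀ p : ℕ, p.Prime → p ∣ t → p ∣ C := fun p hp h => cs_prime hp (by rw [← ht]; exact h)
  obtain ⟨x, rfl⟩ := hd₁
  rw [Nat.mul_div_cancel_left _ hg0] at hm
  have hy : h₂ = g * (x + t) := by rw [mul_add, ← hgt]; omega
  subst hy
  have hx0 : 0 < x := Nat.pos_of_mul_pos_left h₁0
  have hx1 : 0 < x + t := by omega
  have hcfg : cf C g = g := cf_self hC hg0 hgC
  have hsol' : InfSol (cf C (x + t) * A₂) (cf C x * A₁) (c * t) := by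
    apply InfSol.cancel' hg0
    have e1 : g * (cf C (x + t) * A₂) = cf C (g * (x + t)) * A₂ := by
      rw [cf_mul hC hg0 hx1, hcfg]; ring
    have e2 : g * (cf C x * A₁) = cf C (g * x) * A₁ := by
      rw [cf_mul hC hg0 hx0, hcfg]; ring
    have e3 : (g : ℤ) * (c * t) = c * ((g * (x + t) : ℕ) : ℤ) - c * ((g * x : ℕ) : ℤ) := by
      push_cast
      ring
    rw [e1, e2, e3]
    exact hsol
  have hcop : Nat.Coprime (cf C (x + t) * A₂) (cf C x * A₁) := by
    refine Nat.Coprime.mul_left (Nat.Coprime.mul_right ?_ ?_) (Nat.Coprime.mul_right ?_ ?_)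
    · by_contra hcon
      obtain ⟨p, hp, h1, h2⟩ := Nat.Prime.not_coprime_iff_dvd.1 hcon
      have h3 : p ∣ x + t := h1.trans (cf_dvd C _)
      have h4 : p ∣ x := h2.trans (cf_dvd C x)
      have h5 : p ∣ t := (Nat.dvd_add_right h4).1 h3
      have h6 := Nat.dvd_gcd h1 (htp p hp h5)
      rw [cf_coprime hC hx1] at h6
      exact hp.one_lt.ne' (Nat.dvd_one.1 h6)
    · exact (hA₁h.symm.coprime_dvd_left ((cf_dvd C (x + t)).trans (Dvd.intro_left g rfl)))
    · exact (hA₂h.coprime_dvd_right ((cf_dvd C x).trans (Dvd.intro_left g rfl)))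
    · exact hAA.symm
  have hct : c * (t : ℤ) ≠ 0 := mul_ne_zero hc (by exact_mod_cast ht0.ne')
  have ha0 := Nat.mul_pos (cf_pos (C := C) hx1) hA₂
  have hb0 := Nat.mul_pos (cf_pos (C := C) hx0) hA₁
  have hcond := InfSol.conditions ha0 hb0 hct hcop hsol'
  have hxK : x + t ≤ K := (Nat.le_mul_of_pos_left _ hg0).trans hK₂
  refine ⟨cf C (x + t), cf C x, t, cf_pos hx1, ?_, cf_pos hx0, ?_, ?_, ht0, by omega, ht4, ?_, ?_⟩
  · exact (Nat.le_of_dvd hx1 (cf_dvd C _)).trans hxK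
  · exact (Nat.le_of_dvd hx0 (cf_dvd C _)).trans (by omega)
  · -- the divisor m
    have h1 : Nat.Coprime m (cs C x) := by
      by_contra hcon
      obtain ⟨p, hp, h1, h2⟩ := Nat.Prime.not_coprime_iff_dvd.1 hcon
      have h3 := cs_prime hp h2
      have hpZ : Prime (p : ℤ) := Nat.prime_iff_prime_int.1 hp
      exact hpZ.not_isUnit (hmc.isUnit_of_dvd' (by exact_mod_cast h1) (Int.natCast_dvd.2 h3))
    refine h1.dvd_of_dvd_mul_right ?_
    rw [cf_mul_cs]
    exact hm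
  · intro p hp hd
    exact Int.natCast_dvd.2 (htp p hp hd)
  · refine ⟨ha0, hb0, hct, hcop, hcond.1, hcond.2.1, ?_, hsol'⟩
    rintro ⟨h1, h2, h3⟩
    exact hcond.2.2 ⟨by exact_mod_cast h1, by exact_mod_cast h2, h3⟩

/-- the part of the difference of two shifts in different clusters which is composed of primes
of `c` -/
theorem GT_cs {z : ℕ} {c : ℤ} (hc : c ≠ 0) {D : ℕ} (hD : 0 < D) (h : cs (MM (EP z c)) D ≤ 4) :
    GT z (cs c.natAbs D) := by
  have hC : 0 < c.natAbs := Int.natAbs_pos.2 hc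
  have hE : ∀ p ∈ EP z c, p.Prime := fun p hp => (mem_EP.1 hp).1.2
  have hM0 : 0 < MM (EP z c) := MM_pos hE
  obtain ⟨t, ht⟩ : ∃ t, t = cs c.natAbs D := ⟨_, rfl⟩
  have ht0 : 0 < t := by rw [ht]; exact cs_pos hD
  have ht1 : cs (MM (EP z c)) t = cs (MM (EP z c)) D := by
    refine Nat.eq_of_factorization_eq (cs_pos ht0).ne' (cs_pos hD).ne' fun p => ?_
    by_cases hp : p.Prime
    · rw [cs_factorization hM0 ht0 hp, cs_factorization hM0 hD hp]
      split_ifs with h1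
      · rw [ht, cs_factorization hC hD hp, if_pos (mem_EP.1 ((MM_prime hE hp).1 h1)).2]
      · rfl
    · rw [Nat.factorization_eq_zero_of_not_prime _ hp, Nat.factorization_eq_zero_of_not_prime _ hp]
  rw [← ht]
  refine ⟨cs (MM (EP z c)) t, cf (MM (EP z c)) t, by rw [mul_comm, cf_mul_cs], by rw [ht1]; exact h,
    fun p hp hd => ?_⟩
  by_contra hcon
  have h1 : p ∣ c.natAbs := cs_prime hp (by rw [← ht]; exact hd.trans (cf_dvd _ t))
  have h2 : p ∈ EP z c := mem_EP.2 ⟨⟨by omega, hp⟩, h1⟩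
  have h3 := Nat.dvd_gcd hd ((MM_prime hE hp).2 h2)
  rw [cf_coprime hM0 ht0] at h3
  exact hp.one_lt.ne' (Nat.dvd_one.1 h3)

/-- **The core, uniformly in `c`.** -/
theorem link_coreT : ∃ k : ℕ, 2 ≤ k ∧ ∃ ρ : Fin k → ℕ, ∀ z : ℕ, ∀ c : ℤ, c ≠ 0 →
    ∀ (m K : ℕ) (h : Fin k → ℕ),
    StrictMono h → (∀ i, 0 < h i) → (∀ i, h i ≡ ρ i [MOD MM (EP z c)]) →
    (∀ i j, i < j → cf (MM (EP z c)) (h j - h i) ∣ h i ∧
      m ∣ h i / cf (MM (EP z c)) (h j - h i)) →
    (∀ i, h i ≤ K) → IsCoprime (m : ℤ) c → ∀ A : Fin k → ℕ, (∀ i, 0 < A i) →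
    (∀ i, IsCoprime (A i : ℤ) c) → (∀ i j, i ≠ j → Nat.Coprime (A i) (A j)) →
    (∀ i l, Nat.Coprime (A i) (h l)) → ∃ i j, i < j ∧ LinkT z c m K (A i) (A j) := by
  obtain ⟨kc, hkc, H⟩ := two_primes_cluster
  refine ⟨5 * kc, by omega, fun i => ((cl i : Fin 5) : ℕ),
    fun z c hc m K h hmono hpos hres hdvd hK hmc A hA hAc hAA hAh => ?_⟩
  have hC : 0 < c.natAbs := Int.natAbs_pos.2 hc
  have hE : ∀ p ∈ EP z c, p.Prime := fun p hp => (mem_EP.1 hp).1.2
  have hMC : ∀ p : ℕ, p.Prime → p ∣ MM (EP z c) → p ∣ c.natAbs :=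
    fun p hp h => (mem_EP.1 ((MM_prime hE hp).1 h)).2
  have hdvd' : ∀ i j, i < j → cf c.natAbs (h j - h i) ∣ h i ∧
      m ∣ h i / cf c.natAbs (h j - h i) := by
    intro i j hij
    obtain ⟨h1, h2⟩ := hdvd i j hij
    have h3 := cf_dvd_cf (C := c.natAbs) (M := MM (EP z c)) (D := h j - h i) hC
      (by have := hmono hij; omega) hMC
    refine ⟨h3.trans h1, h2.trans ?_⟩
    exact Nat.div_dvd_div_left h1 h3
  have hcs : ∀ i j, i < j → cl i ≠ cl j → GT z (cs c.natAbs (h j - h i)) := by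
    intro i j hlt hcl
    refine GT_cs hc (by have := hmono hlt; omega) ?_
    refine cs_diff_le hE (hmono hlt) ?_ ?_ ?_ (hres i) (hres j)
    · have := (cl i).isLt
      simp only
      omega
    · have := (cl j).isLt
      simp only
      omega
    · exact fun h => hcl (Fin.ext h)
  obtain ⟨i, j, hij, hs⟩ := H (fun i => cf c.natAbs (h i) * A i) (fun i => c * (h i : ℤ))
    (fun i => Nat.mul_pos (cf_pos (hpos i)) (hA i)) (by
      intro i j hij
      have h1 : (h i : ℤ) = h j := mul_left_cancel₀ hc hij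
      exact hmono.injective (by exact_mod_cast h1))
    (fun p hp => core_localT h hpos hmono c hc (fun i j hij => (hdvd' i j hij).1) A hA hAh hAc hAA p hp)
  have hij' : i ≠ j := fun h => hij (by rw [h])
  rcases lt_or_gt_of_ne hij' with hlt | hlt
  · refine ⟨i, j, hlt, ?_⟩
    have h1 := hs.swap'
    rw [neg_sub] at h1
    exact core_pairT hc (hmono hlt) (hpos i) (hdvd' i j hlt).1 (hdvd' i j hlt).2 hmc
      (hcs i j hlt hij) (hK j) (hA i) (hA j) (hAh i j) (hAh j i) (hAA i j hij') h1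
  · refine ⟨j, i, hlt, ?_⟩
    exact core_pairT hc (hmono hlt) (hpos j) (hdvd' j i hlt).1 (hdvd' j i hlt).2 hmc
      (hcs j i hlt (fun h => hij h.symm)) (hK i) (hA j) (hA i)
      (hAh j i) (hAh i j) (hAA j i hij'.symm) hs

end Pool.Agent.helper25.FB
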