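import Pool.Agent.helper39.MT.R1d

/-!
# MP_bf63dc_nt, every `c`: the counting

The counting of `Pool.Agent.helper39.MT.pairs_all`, for an abstract relation between the multipliers.
-/

namespace Pool.Agent.helper25.FB

open Finset Pool.Agent.helper39.MT

theorem count_core {k H K P : ℕ} (hk : 2 ≤ k) (hH0 : 0 < H) (hK : K = 32 * k ^ 2 + H)
    (hP : P = primorial K) {c : ℤ} (hc : c ≠ 0) {N : ℕ}
    (hN' : (K + 8 * H * P * (300 * k ^ 2 * P + P + 3)) * c.natAbs ^ 2 ≤ N)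
    (Good : Finset (ℕ × ℕ)) (R : Fin k → Fin k → ℕ → ℕ → Prop)
    (hmt : ∀ A : Fin k → ℕ, (∀ i, 0 < A i) → (∀ i, ∀ p : ℕ, p.Prime → p ≤ K → ¬ p ∣ A i) →
      (∀ i, IsCoprime (A i : ℤ) c) → (∀ i j, i ≠ j → Nat.Coprime (A i) (A j)) →
      ∃ i j, i ≠ j ∧ R i j (A i) (A j))
    (hgood : ∀ i j, i ≠ j → ∃ f : ℕ × ℕ → ℕ × ℕ, Function.Injective f ∧ ∀ A₁ A₂ : ℕ, 0 < A₁ →
      0 < A₂ → (∀ p : ℕ, p.Prime → p ≤ K → ¬ p ∣ A₁) → (∀ p : ℕ, p.Prime → p ≤ K → ¬ p ∣ A₂) →
      Nat.Coprime A₁ A₂ → H * A₁ ≤ N → H * A₂ ≤ N → R i j A₁ A₂ → f (A₁, A₂) ∈ Good) :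
    1 / (8192 * (k : ℝ) ^ 2 * H ^ 2 * P ^ 2) * #(AdmP c N) ≤ #Good := by
  classical
  have hP0 : 0 < P := by rw [hP]; exact primorial_pos K
  have hKP : ∀ p : ℕ, p.Prime → p ≤ K → p ∣ P := by
    intro p hp hpK
    rw [hP]
    exact hp.dvd_primorial_iff.2 hpK
  have hPK : ∀ p : ℕ, p.Prime → p ∣ P → p ≤ K := fun p hp hd => by
    rw [hP] at hd
    exact hp.dvd_primorial_iff.1 hd
  have hkr : (0 : ℝ) < k := by
    have : 0 < k := by omega
    exact_mod_cast this
  have hHr : (0 : ℝ) < H := by exact_mod_cast hH0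
  have hPr : (0 : ℝ) < P := by exact_mod_cast hP0
  have hc0 : 0 < c.natAbs := Int.natAbs_pos.2 hc
  set C : ℕ := cf P c.natAbs with hCdef
  have hC : 0 < C := cf_pos hc0
  have hCc : C ∣ c.natAbs := cf_dvd _ _
  have hCle : C ≤ c.natAbs := Nat.le_of_dvd hc0 hCc
  have hCr : (0 : ℝ) < C := by exact_mod_cast hC
  have hPC : Nat.Coprime P C := (cf_coprime hP0 hc0).symm
  obtain ⟨N₀, hN₀⟩ : ∃ N₀ : ℕ, N₀ = 8 * H * P * (300 * k ^ 2 * P * C ^ 2 + P + 1 + 2 * C) := ⟨_, rfl⟩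
  have hN : N₀ ≤ N := by
    refine le_trans ?_ hN'
    have hCC : C ≤ C ^ 2 := Nat.le_self_pow two_ne_zero C
    have hC1 : 1 ≤ C ^ 2 := Nat.one_le_pow _ _ hC
    have h1 : 300 * k ^ 2 * P * C ^ 2 + P + 1 + 2 * C ≤ (300 * k ^ 2 * P + P + 3) * C ^ 2 := by
      have h2 : P ≤ P * C ^ 2 := Nat.le_mul_of_pos_right P (by omega)
      calc 300 * k ^ 2 * P * C ^ 2 + P + 1 + 2 * C
          ≤ 300 * k ^ 2 * P * C ^ 2 + P * C ^ 2 + C ^ 2 + 2 * C ^ 2 := by omega
        _ = (300 * k ^ 2 * P + P + 3) * C ^ 2 := by ring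
    calc N₀ = 8 * H * P * (300 * k ^ 2 * P * C ^ 2 + P + 1 + 2 * C) := hN₀
      _ ≤ 8 * H * P * ((300 * k ^ 2 * P + P + 3) * C ^ 2) := Nat.mul_le_mul_left _ h1
      _ ≤ K * C ^ 2 + 8 * H * P * ((300 * k ^ 2 * P + P + 3) * C ^ 2) := Nat.le_add_left _ _
      _ = (K + 8 * H * P * (300 * k ^ 2 * P + P + 3)) * C ^ 2 := by ring
      _ ≤ _ := Nat.mul_le_mul_left _ (Nat.pow_le_pow_left hCle 2)
  -- choice of X
  set X : ℕ := N / (4 * H * P) with hX
  have h4HP : 0 < 4 * H * P := by positivity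
  have hX1 : 300 * k ^ 2 * P * C ^ 2 + P + 1 + 2 * C ≤ X := by
    rw [hX, Nat.le_div_iff_mul_le h4HP]
    refine le_trans ?_ hN
    rw [hN₀]
    nlinarith [Nat.zero_le ((300 * k ^ 2 * P * C ^ 2 + P + 1 + 2 * C) * (4 * H * P))]
  have hm2 : 2 ≤ 1 + P := by omega
  have hmP : Nat.Coprime (1 + P) P := by simp
  have htup := tuples_coprime (k := k) (P := P) (C := C) (m := 1 + P) (K := K) hk hC hPC
    (by omega) hP0 hKP hmP hm2 X (by omega) (by omega)
  set S := SX P C (1 + P) X with hS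
  set val : ℕ → ℕ := fun y => 1 + P + P * y with hval
  -- good pairs of arguments
  set G : Fin k → Fin k → Finset (ℕ × ℕ) := fun i j =>
    {yy ∈ S ×ˢ S | Nat.Coprime (val yy.1) (val yy.2) ∧ R i j (val yy.1) (val yy.2)} with hG
  have hvK' : ∀ y, ∀ p : ℕ, p.Prime → p ≤ K → ¬ p ∣ val y := by
    intro y p hp hpK hd
    have h1 := hKP p hp hpK
    have h2 : p ∣ 1 := by
      have h3 : p ∣ P + P * y := dvd_add h1 (dvd_mul_of_dvd_left h1 _)
      have h4 : p ∣ (P + P * y) + 1 := by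
        have : val y = (P + P * y) + 1 := by simp only [hval]; ring
        rwa [this] at hd
      exact (Nat.dvd_add_right h3).1 h4
    exact hp.one_lt.ne' (Nat.dvd_one.1 h2)
  have hvc' : ∀ y, Nat.Coprime (val y) C → IsCoprime (val y : ℤ) c := by
    intro y hy
    rw [Int.isCoprime_iff_gcd_eq_one]
    change Nat.gcd (Int.natAbs (val y : ℤ)) c.natAbs = 1
    rw [Int.natAbs_natCast]
    have h1 : Nat.Coprime (val y) (cf P c.natAbs * cs P c.natAbs) := by
      refine Nat.Coprime.mul_right hy ?_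
      by_contra hcon
      obtain ⟨p, hp, h1, h2⟩ := Nat.Prime.not_coprime_iff_dvd.1 hcon
      exact hvK' y p hp (hPK p hp (cs_prime hp h2)) h1
    rwa [cf_mul_cs] at h1
  obtain ⟨i, j, hij, hcard⟩ := pigeon_tuples hk S
    {t ∈ Fintype.piFinset (fun _ : Fin k => S) | ∀ i j, i ≠ j → Nat.Coprime (val (t i)) (val (t j))}
    (filter_subset _ _) htup G (by
      intro t ht
      rw [mem_filter, Fintype.mem_piFinset] at ht
      obtain ⟨htS, htc⟩ := ht
      have hvpos : ∀ i, 0 < val (t i) := fun i => by simp only [hval]; omega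
      have hvc : ∀ i, IsCoprime (val (t i) : ℤ) c := by
        intro i
        have h1 := htS i
        rw [hS, SX, mem_filter] at h1
        exact hvc' _ h1.2
      obtain ⟨i, j, hij, hs⟩ := hmt (fun i => val (t i)) hvpos (fun i => hvK' _) hvc htc
      refine ⟨i, j, hij, ?_⟩
      simp only [hG, mem_filter, mem_product]
      exact ⟨⟨htS i, htS j⟩, htc i j hij, hs⟩)
  -- the size of S
  have hSlow := SX_lower (m := 1 + P) (X := X) hC hPC (by omega)
  rw [← hS] at hSlow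
  have hφ0 : 0 < (Nat.totient C : ℝ) := by exact_mod_cast Nat.totient_pos.2 hC
  -- from arguments to coefficients
  have hvalN : ∀ y ∈ S, H * val y ≤ N := by
    intro y hy
    rw [hS, SX, mem_filter, mem_range] at hy
    have h1 : val y ≤ 2 * P * X := by
      simp only [hval]
      have h2 : P * y ≤ P * X := Nat.mul_le_mul_left _ hy.1.le
      have h3 : 1 + P ≤ P * X := by
        have := Nat.le_mul_of_pos_left X hP0
        omega
      nlinarith
    calc H * val y ≤ H * (2 * P * X) := Nat.mul_le_mul_left _ h1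
      _ ≤ 4 * H * P * X := by nlinarith [Nat.zero_le (H * P * X)]
      _ ≤ N := Nat.mul_div_le N _
  have hvalinj : Function.Injective val := by
    intro y y' hyy
    simp only [hval] at hyy
    have : P * y = P * y' := by omega
    exact Nat.eq_of_mul_eq_mul_left hP0 this
  have hGle : #(G i j) ≤ #Good := by
    obtain ⟨f, hf, hfG⟩ := hgood i j hij
    refine card_le_card_of_injOn (fun yy => f (val yy.1, val yy.2)) ?_ ?_
    · rintro ⟨y, y'⟩ hy
      simp only [hG, coe_filter, mem_product, Set.mem_ofPred_eq] at hy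
      obtain ⟨⟨hy1, hy2⟩, hcop, hs⟩ := hy
      exact hfG _ _ (by simp only [hval]; omega) (by simp only [hval]; omega) (hvK' y) (hvK' y')
        hcop (hvalN y hy1) (hvalN y' hy2) hs
    · rintro ⟨y, y'⟩ - ⟨z, z'⟩ - hyz
      have h1 := hf hyz
      simp only [Prod.mk.injEq] at h1
      rw [hvalinj h1.1, hvalinj h1.2]
  -- numbers
  have hXN : (N : ℝ) / (8 * H * P) ≤ X := by
    have h1 : N < 4 * H * P * X + 4 * H * P := Nat.lt_mul_div_succ N h4HP |>.trans_eq (by ring)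
    have h2 : (N : ℝ) < 4 * H * P * X + 4 * H * P := by exact_mod_cast h1
    have h3 : (1 : ℝ) ≤ X := by
      have : 1 ≤ X := by omega
      exact_mod_cast this
    rw [div_le_iff₀ (by positivity)]
    have h4 : 0 < (H : ℝ) * P := by positivity
    nlinarith
  have hCN : C ≤ N := by
    have h1 : X ≤ N := Nat.div_le_self _ _
    omega
  have hadm := r1d_adm_card c C hCc hC N hCN
  have hfin : (Nat.totient C : ℝ) * N / (16 * H * P * C) ≤ #S := by
    refine le_trans ?_ hSlow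
    calc (Nat.totient C : ℝ) * N / (16 * H * P * C)
        = (Nat.totient C : ℝ) * ((N : ℝ) / (8 * H * P)) / (2 * C) := by field_simp; ring
      _ ≤ (Nat.totient C : ℝ) * X / (2 * C) := by gcongr
  calc 1 / (8192 * (k : ℝ) ^ 2 * H ^ 2 * P ^ 2) * #(AdmP c N)
      ≤ 1 / (8192 * (k : ℝ) ^ 2 * H ^ 2 * P ^ 2) * (2 * Nat.totient C * N / C) ^ 2 := by gcongr
    _ ≤ ((Nat.totient C : ℝ) * N / (16 * H * P * C)) ^ 2 / (2 * k ^ 2) := by
        have e : ((Nat.totient C : ℝ) * N / (16 * H * P * C)) ^ 2 / (2 * k ^ 2) =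
          4 * (1 / (8192 * (k : ℝ) ^ 2 * H ^ 2 * P ^ 2) * (2 * Nat.totient C * N / C) ^ 2) := by
          field_simp
          ring
        rw [e]
        have : 0 ≤ 1 / (8192 * (k : ℝ) ^ 2 * H ^ 2 * P ^ 2) * (2 * Nat.totient C * N / C) ^ 2 := by
          positivity
        linarith
    _ ≤ (#S : ℝ) ^ 2 / (2 * k ^ 2) := by gcongr
    _ ≤ #(G i j) := hcard
    _ ≤ #Good := by exact_mod_cast hGle

end Pool.Agent.helper25.FB
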