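import Pool.Agent.helper85.QC.Dense

/-!
# MP_bf63dc_nt, uniformly in `c`: an explicit threshold for the loss
-/

namespace Pool.Agent.helper25.FB

open Finset Real Pool.Agent.helper39.MT Pool.Agent.helper85.FC Pool.Agent.helper85.QC

/-- the loss is small for `N ≥ K C²`. -/
theorem loss_smallT {k y : ℕ} (hk : 0 < k) (hy : 0 < y) {ε : ℝ} (hε : 0 < ε)
    (hyε : 16 / (ε * (ε / (16 * k))) ≤ y) (M H : ℕ) : ∃ K₀ : ℕ, ∀ m D C N : ℕ, 0 < m → m ≤ M →
    0 < D → D ≤ H → 0 < C → sg y D ≤ ε / 16 → K₀ * C ^ 2 ≤ N → 0 < N →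
    loss k y m (y.factorial * C) D (ε / (16 * k)) (ε / (16 * k)) N <
      ε / 2 * (dens (y.factorial * C) m * N) := by
  set η : ℝ := ε / (16 * k) with hη
  have hkr : (0 : ℝ) < k := by exact_mod_cast hk
  have hyr : (0 : ℝ) < y := by exact_mod_cast hy
  have hη0 : 0 < η := by rw [hη]; positivity
  have hYr : (0 : ℝ) < y.factorial := by exact_mod_cast Nat.factorial_pos y
  -- the constant
  set c₁ : ℝ := (2 * Real.log (H + 1) + 1 / η) + 2 * (1 / η + 2 * k) with hc₁
  have hlogH : 0 ≤ Real.log (H + 1) := Real.log_nonneg (by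
    have : (0 : ℝ) ≤ H := Nat.cast_nonneg _
    linarith)
  have hc₁0 : 0 ≤ c₁ := by rw [hc₁]; positivity
  set c₂ : ℝ := 16 * c₁ * (y.factorial * (M + 1)) / ε with hc₂
  have hc₂0 : 0 ≤ c₂ := by rw [hc₂]; positivity
  obtain ⟨K₀, hK₀⟩ := exists_nat_ge (c₂ ^ 2)
  refine ⟨K₀, fun m D C N hm hmM hD hDH hC hsg hN hN0 => ?_⟩
  set P : ℕ := y.factorial * C with hP
  have hP0 : 0 < P := Nat.mul_pos (Nat.factorial_pos y) hC
  have hd := dens_pos hP0 hm
  have hNr : (0 : ℝ) < N := by exact_mod_cast hN0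
  have hmr : (0 : ℝ) < m := by exact_mod_cast hm
  have hCr : (0 : ℝ) < C := by exact_mod_cast hC
  have hPr : (0 : ℝ) < P := by exact_mod_cast hP0
  have hphi : (0 : ℝ) < Nat.totient P := by exact_mod_cast Nat.totient_pos.2 hP0
  -- `c₂ C ≤ √N`
  have hs1 : c₂ * C ≤ Real.sqrt N := by
    apply Real.le_sqrt_of_sq_le
    have h1 : ((K₀ * C ^ 2 : ℕ) : ℝ) ≤ N := by exact_mod_cast hN
    push_cast at h1
    calc (c₂ * (C : ℝ)) ^ 2 = c₂ ^ 2 * (C : ℝ) ^ 2 := by ring
      _ ≤ (K₀ : ℝ) * (C : ℝ) ^ 2 := by gcongr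
      _ ≤ (N : ℝ) := h1
  have hs0 : 0 < Real.sqrt N := Real.sqrt_pos.2 hNr
  have hs2 : Real.sqrt N * Real.sqrt N = N := Real.mul_self_sqrt hNr.le
  have hs3 : 1 ≤ Real.sqrt N := by
    rw [show (1 : ℝ) = Real.sqrt 1 by simp]
    exact Real.sqrt_le_sqrt (by exact_mod_cast hN0)
  have hlogN : Real.log N ≤ 2 * Real.sqrt N := by
    have h1 := Real.log_le_sub_one_of_pos hs0
    have h2 : Real.log N = 2 * Real.log (Real.sqrt N) := by
      rw [Real.log_sqrt hNr.le]
      ring
    rw [h2]
    linarith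
  have hlogD : Real.log D ≤ Real.log (H + 1) := by
    have h1 : (0 : ℝ) < D := by exact_mod_cast hD
    apply Real.log_le_log h1
    have : (D : ℝ) ≤ H := by exact_mod_cast hDH
    linarith
  have h0 : (2 * Real.log D + 1 / η) + (1 / η + 2 * k) * Real.log N ≤
      ε / 16 * (N / (P * m)) := by
    have h1 : (2 * Real.log D + 1 / η) + (1 / η + 2 * k) * Real.log N ≤
        c₁ * Real.sqrt N := by
      have h2 : (2 * Real.log D + 1 / η) ≤ (2 * Real.log (H + 1) + 1 / η) * Real.sqrt N := by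
        calc (2 * Real.log D + 1 / η) ≤ (2 * Real.log (H + 1) + 1 / η) * 1 := by linarith
          _ ≤ _ := by gcongr
      have h3 : (1 / η + 2 * k) * Real.log N ≤ (1 / η + 2 * k) * (2 * Real.sqrt N) := by gcongr
      rw [hc₁]
      nlinarith
    refine h1.trans ?_
    rw [mul_div_assoc', le_div_iff₀ (by positivity)]
    have h4 : (P : ℝ) * m ≤ y.factorial * (M + 1) * C := by
      rw [hP]
      push_cast
      have h5 : (m : ℝ) ≤ M + 1 := by exact_mod_cast (by omega : m ≤ M + 1)
      calc (y.factorial : ℝ) * C * m ≤ y.factorial * C * (M + 1) := by gcongr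
        _ = _ := by ring
    calc c₁ * Real.sqrt N * (P * m) ≤ c₁ * Real.sqrt N * (y.factorial * (M + 1) * C) := by gcongr
      _ = ε / 16 * (c₂ * C * Real.sqrt N) := by
          rw [hc₂]
          field_simp
      _ ≤ ε / 16 * (Real.sqrt N * Real.sqrt N) := by gcongr
      _ = ε / 16 * N := by rw [hs2]
  have h1 : (Nat.totient P * (2 * Real.log D) + Nat.totient P / η) +
      (Nat.totient P / η + 2 * k * Nat.totient P) * Real.log N ≤ ε / 16 * dens P m * N := by
    have e1 : (Nat.totient P * (2 * Real.log D) + Nat.totient P / η) +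
      (Nat.totient P / η + 2 * k * Nat.totient P) * Real.log N =
      Nat.totient P * ((2 * Real.log D + 1 / η) + (1 / η + 2 * k) * Real.log N) := by ring
    have e2 : ε / 16 * dens P m * N = Nat.totient P * (ε / 16 * (N / (P * m))) := by
      unfold Pool.Agent.helper85.QC.dens
      field_simp
    rw [e1, e2]
    gcongr
  have hkη : k * η = ε / 16 := by rw [hη]; field_simp
  have h2 : dens P m * N * sg y D ≤ dens P m * N * (ε / 16) := by gcongr
  have h3 : dens P m * N / y / η ≤ dens P m * N * (ε / 16) := by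
    have h4 : 16 ≤ y * (ε * η) := by
      rw [div_le_iff₀ (by positivity)] at hyε
      exact hyε
    rw [div_div, div_le_iff₀ (by positivity)]
    have h5 : dens P m * N * (ε / 16) * (y * η) = dens P m * N * (y * (ε * η) / 16) := by ring
    rw [h5]
    have h6 : (1 : ℝ) ≤ y * (ε * η) / 16 := by linarith
    have h7 : 0 ≤ dens P m * N := by positivity
    nlinarith
  unfold loss
  have e1 : (dens P m * N / y + Nat.totient P * (1 + Real.log N)) / η = dens P m * N / y / η +
      (Nat.totient P / η + Nat.totient P / η * Real.log N) := by ring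
  have e2 : (k : ℝ) * (dens P m * N * η + Nat.totient P * (2 * Real.log N)) =
      dens P m * N * (k * η) + 2 * k * Nat.totient P * Real.log N := by ring
  have e3 : (k : ℝ) * (η * (dens P m * N)) = dens P m * N * (k * η) := by ring
  rw [e1, e2, e3, hkη]
  have h8 : 0 < ε * (dens P m * N) := by positivity
  nlinarith

end Pool.Agent.helper25.FB
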