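import Pool.Agent.helper85.QC.Select

/-!
# Selecting unlinked elements of dense sets, for an abstract relation
-/

namespace Pool.Agent.helper25.FB

open Finset Real Pool.Agent.helper39.MT Pool.Agent.helper85.FC Pool.Agent.helper85.QC

/-- one step of the selection. -/
theorem select_step4 {L : ℕ → ℕ → Prop} {k y m P C D : ℕ} (hy : 0 < y) (hm : 0 < m) (hC : 0 < C)
    (hP : P = y.factorial * C) (hmC : Nat.Coprime m C) (hD : 0 < D) {η δ : ℝ} (hη : 0 < η)
    (hδ : 0 ≤ δ) {N : ℕ} (hN : 0 < N) {S : Finset ℕ} (hS : S ⊆ CC P m N) {r : ℕ} (hr : r ≤ k)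
    {b : ℕ → ℕ} (hb : ∀ i < r, 0 < b i ∧ b i ≤ N ∧ sg y (b i) ≤ η)
    (hl : ∀ i < r, (Set.ncard {x : ℕ | x ∈ S ∧ L (cf P (b i)) (cf P x)} : ℝ) ≤
      δ * (dens P m * N))
    (hbig : loss k y m P D η δ N < #S) :
    ∃ x ∈ S, sg y x ≤ η ∧ Nat.Coprime (cf P x) D ∧ ∀ i < r, Nat.Coprime (cf P x) (b i) ∧
      ¬ L (cf P (b i)) (cf P x) := by
  classical
  by_contra hcon
  push Not at hcon
  have hP0 : 0 < P := by rw [hP]; exact Nat.mul_pos (Nat.factorial_pos y) hC
  have hd0 := dens_pos hP0 hm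
  have hsub : S ⊆ (({x ∈ CC P m N | ¬ Nat.Coprime (cf P x) D} ∪ {x ∈ CC P m N | η < sg y x}) ∪
      (range r).biUnion fun i => {x ∈ CC P m N | ¬ Nat.Coprime (cf P x) (b i)}) ∪
      (range r).biUnion fun i => {x ∈ S | L (cf P (b i)) (cf P x)} := by
    intro x hx
    rw [mem_union, mem_union, mem_union, mem_filter, mem_filter, mem_biUnion, mem_biUnion]
    by_cases h1 : Nat.Coprime (cf P x) D
    · by_cases h2 : sg y x ≤ η
      · obtain ⟨i, hi, h3⟩ := hcon x hx h2 h1
        by_cases h4 : Nat.Coprime (cf P x) (b i)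
        · exact Or.inr ⟨i, mem_range.2 hi, mem_filter.2 ⟨hx, h3 h4⟩⟩
        · exact Or.inl (Or.inr ⟨i, mem_range.2 hi, mem_filter.2 ⟨hS hx, h4⟩⟩)
      · push Not at h2
        exact Or.inl (Or.inl (Or.inr ⟨hS hx, h2⟩))
    · exact Or.inl (Or.inl (Or.inl ⟨hS hx, h1⟩))
  have h1 := card_le_card hsub
  have h2 := h1.trans ((card_union_le _ _).trans (Nat.add_le_add ((card_union_le _ _).trans
    (Nat.add_le_add (card_union_le _ _) card_biUnion_le)) card_biUnion_le))
  have h3 : (#S : ℝ) ≤ (#{x ∈ CC P m N | ¬ Nat.Coprime (cf P x) D} + #{x ∈ CC P m N | η < sg y x} +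
      ∑ i ∈ range r, (#{x ∈ CC P m N | ¬ Nat.Coprime (cf P x) (b i)} : ℝ)) +
      ∑ i ∈ range r, (#{x ∈ S | L (cf P (b i)) (cf P x)} : ℝ) := by exact_mod_cast h2
  have h4 := noncop_count hm hC hP hD N (m := m)
  have h5 : (#{x ∈ CC P m N | η < sg y x} : ℝ) ≤
      (dens P m * N / y + Nat.totient P * (1 + Real.log N)) / η := by
    rw [le_div_iff₀ hη]
    exact sg_rare_rel hy hm hC hP hmC N
  have hlogN : (0 : ℝ) ≤ Real.log N := Real.log_natCast_nonneg N
  have hphi : (0 : ℝ) ≤ Nat.totient P := Nat.cast_nonneg _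
  have hrk : (r : ℝ) ≤ k := by exact_mod_cast hr
  have h6 : ∑ i ∈ range r, (#{x ∈ CC P m N | ¬ Nat.Coprime (cf P x) (b i)} : ℝ) ≤
      k * (dens P m * N * η + Nat.totient P * (2 * Real.log N)) := by
    calc ∑ i ∈ range r, (#{x ∈ CC P m N | ¬ Nat.Coprime (cf P x) (b i)} : ℝ)
        ≤ ∑ i ∈ range r, (dens P m * N * η + Nat.totient P * (2 * Real.log N)) := by
          refine sum_le_sum fun i hi => ?_
          rw [mem_range] at hi
          obtain ⟨hb1, hb2, hb3⟩ := hb i hi
          refine (noncop_count hm hC hP hb1 N).trans ?_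
          have h7 : Real.log (b i) ≤ Real.log N :=
            Real.log_le_log (by exact_mod_cast hb1) (by exact_mod_cast hb2)
          gcongr
      _ = r * (dens P m * N * η + Nat.totient P * (2 * Real.log N)) := by
          rw [sum_const, card_range, nsmul_eq_mul]
      _ ≤ _ := by gcongr
  have h7 : ∑ i ∈ range r, (#{x ∈ S | L (cf P (b i)) (cf P x)} : ℝ) ≤
      k * (δ * (dens P m * N)) := by
    calc ∑ i ∈ range r, (#{x ∈ S | L (cf P (b i)) (cf P x)} : ℝ)
        ≤ ∑ i ∈ range r, (δ * (dens P m * N)) := by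
          refine sum_le_sum fun i hi => ?_
          rw [mem_range] at hi
          refine le_trans ?_ (hl i hi)
          rw [← Set.ncard_coe_finset]
          refine le_of_eq ?_
          congr 2
          ext x
          simp
      _ = r * (δ * (dens P m * N)) := by rw [sum_const, card_range, nsmul_eq_mul]
      _ ≤ _ := by gcongr
  unfold loss at hbig
  linarith

/-- **Linked elements in dense subsets of a class.** -/
theorem class_links4 {k : ℕ} {L : ℕ → ℕ → Prop} {c : ℤ} (hc : c ≠ 0) {y m P : ℕ} (hy : 0 < y)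
    (hm : 0 < m) (hP : P = y.factorial * c.natAbs) (hmC : Nat.Coprime m c.natAbs)
    {h : Fin k → ℕ} (hpos : ∀ i, 0 < h i)
    (H : ∀ A : Fin k → ℕ, (∀ i, 0 < A i) →
      (∀ i, IsCoprime (A i : ℤ) c) → (∀ i j, i ≠ j → Nat.Coprime (A i) (A j)) →
      (∀ i l, Nat.Coprime (A i) (h l)) → ∃ i j, i < j ∧ L (A i) (A j))
    {η δ : ℝ} (hη : 0 < η) (hδ : 0 ≤ δ) {N : ℕ → ℕ} (hN0 : 0 < N 0) (hN : Monotone N)
    {S : ℕ → Finset ℕ} (hS : ∀ j < k, S j ⊆ CC P m (N j))
    (hbig : ∀ j < k, loss k y m P (∏ i, h i) η δ (N j) < #(S j)) :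
    ∃ i j, i < j ∧ j < k ∧ ∃ b ∈ S i,
      δ * (dens P m * N j) < Set.ncard {x : ℕ | x ∈ S j ∧ L (cf P b) (cf P x)} := by
  classical
  have hC : 0 < c.natAbs := Int.natAbs_pos.2 hc
  have hP0 : 0 < P := by rw [hP]; exact Nat.mul_pos (Nat.factorial_pos y) hC
  have hD : 0 < ∏ i, h i := prod_pos fun i _ => hpos i
  by_contra hcon
  push Not at hcon
  have hsel : ∀ r ≤ k, ∃ b : ℕ → ℕ, (∀ i < r, b i ∈ S i ∧ sg y (b i) ≤ η ∧
      Nat.Coprime (cf P (b i)) (∏ i, h i)) ∧ ∀ i j, i < j → j < r →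
      Nat.Coprime (cf P (b j)) (b i) ∧ ¬ L (cf P (b i)) (cf P (b j)) := by
    intro r
    induction r with
    | zero => intro _; exact ⟨fun _ => 0, fun i hi => absurd hi (by omega), fun i j _ hj => absurd hj (by omega)⟩
    | succ r ih =>
      intro hr
      obtain ⟨b, hb1, hb2⟩ := ih (by omega)
      have hNr : 0 < N r := lt_of_lt_of_le hN0 (hN (Nat.zero_le r))
      obtain ⟨x, hxS, hx1, hx2, hx3⟩ := select_step4 (L := L) (r := r) (b := b) hy hm hC hP hmC hD hη hδ hNr
        (hS r (by omega)) (by omega : r ≤ k) (by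
          intro i hi
          have h1 := hS i (by omega) (hb1 i hi).1
          rw [mem_CC] at h1
          exact ⟨h1.1.1, h1.1.2.trans (hN hi.le), (hb1 i hi).2.1⟩)
        (fun i hi => hcon i r hi (by omega) (b i) (hb1 i hi).1) (hbig r (by omega))
      refine ⟨Function.update b r x, ?_, ?_⟩
      · intro i hi
        by_cases hir : i = r
        · subst hir
          rw [Function.update_self]
          exact ⟨hxS, hx1, hx2⟩
        · rw [Function.update_of_ne hir]
          exact hb1 i (by omega)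
      · intro i j hij hj
        have hir : i ≠ r := by omega
        rw [Function.update_of_ne hir]
        by_cases hjr : j = r
        · subst hjr
          rw [Function.update_self]
          exact hx3 i hij
        · rw [Function.update_of_ne hjr]
          exact hb2 i j hij (by omega)
  obtain ⟨b, hb1, hb2⟩ := hsel k le_rfl
  have hCC : ∀ i : Fin k, (1 ≤ b i ∧ b i ≤ N i) ∧ cs P (b i) = m := fun i =>
    mem_CC.1 (hS i i.2 (hb1 i i.2).1)
  have hcopC : ∀ i : Fin k, Nat.Coprime (cf P (b i)) P := fun i => cf_coprime hP0 (hCC i).1.1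
  have hZ : ∀ z : ℕ, Nat.Coprime z c.natAbs → IsCoprime (z : ℤ) c := by
    intro z hz
    rw [Int.isCoprime_iff_gcd_eq_one, Int.gcd, Int.natAbs_natCast]
    exact hz
  obtain ⟨i, j, hij, hl⟩ := H (fun i => cf P (b i))
    (fun i => cf_pos (hCC i).1.1)
    (fun i => hZ _ ((hcopC i).coprime_dvd_right (by rw [hP]; exact Dvd.intro_left _ rfl)))
    (by
      have key : ∀ i j : Fin k, i < j → Nat.Coprime (cf P (b i)) (cf P (b j)) := by
        intro i j hij
        exact ((hb2 i j hij j.2).1.symm).coprime_dvd_left (cf_dvd P (b i))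
      intro i j hij
      rcases lt_or_gt_of_ne hij with h1 | h1
      · exact key i j h1
      · exact (key j i h1).symm)
    (fun i l => ((hb1 i i.2).2.2).coprime_dvd_right (dvd_prod_of_mem h (mem_univ l)))
  exact (hb2 i j hij j.2).2 hl

end Pool.Agent.helper25.FB
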