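import Pool.Agent.helper25.FB.HbS
import Pool.Agent.helper25.FB.CoreT
import Pool.Agent.helper25.FB.Sel4
import Pool.Agent.helper25.FB.LossT

/-!
# MP_bf63dc_nt, uniformly in `c`: linked elements in dense sets
-/

namespace Pool.Agent.helper25.FB

open Finset Real Pool.Agent.helper39.MT Pool.Agent.helper85.FC Pool.Agent.helper85.QC

/-- **Linked elements in dense sets.** -/
theorem dense_linksT {ε : ℝ} (hε : 0 < ε) (z : ℕ) : ∃ K : ℕ, ∃ δ : ℝ, 0 < δ ∧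
    ∀ c : ℤ, c ≠ 0 →
    ∀ N : ℕ → ℕ, Monotone N → K * c.natAbs ^ 2 ≤ N 0 → ∀ S : ℕ → Finset ℕ, (∀ j, S j ⊆ PC c.natAbs (N j)) →
    (∀ j, ε * ((Nat.totient c.natAbs : ℝ) / c.natAbs * N j) ≤ #(S j)) →
    ∃ i j, i < j ∧ ∃ b ∈ S i, ∃ u m w t : ℕ, 0 < u ∧ u ≤ K ∧ 0 < m ∧ m ≤ K ∧ 0 < w ∧ w ≤ K ∧
      0 < t ∧ t ≤ K ∧ GT z t ∧ (∀ p : ℕ, p.Prime → p ∣ t → (p : ℤ) ∣ c) ∧
      δ * ((Nat.totient c.natAbs : ℝ) / c.natAbs * N j) ≤
        Set.ncard {x : ℕ | x ∈ S j ∧ m ∣ x ∧ TrueCase (u * (x / m)) (w * b) (c * t)} := by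
  classical
  obtain ⟨k, hk, ρ₀, H⟩ := link_coreT
  have hk0 : 0 < k := by omega
  have hkr : (0 : ℝ) < k := by exact_mod_cast hk0
  have hex0 : ∀ E : Finset ℕ, ∃ y₀ : ℕ, (∀ p ∈ E, p.Prime) → ∀ y ≥ y₀,
      ∀ m : ℕ, 0 < m → (∀ p : ℕ, p.Prime → p ∣ m → p ≤ y) → Nat.Coprime m (MM E) → ∀ ρ : Fin k → ℕ,
      ∃ h : Fin k → ℕ, StrictMono h ∧ (∀ i, 0 < h i) ∧ (∀ i, h i ≡ ρ i [MOD MM E]) ∧
      (∀ i j, i < j → cf (MM E) (h j - h i) ∣ h i ∧ m ∣ h i / cf (MM E) (h j - h i)) ∧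
      sg y (∏ i, h i) ≤ ε / 16 := by
    intro E
    by_cases hE : ∀ p ∈ E, p.Prime
    · obtain ⟨y₀, h1⟩ := hb_res_small k (MM E) (MM_pos hE) (η := ε / 16) (by positivity)
      exact ⟨y₀, fun _ => h1⟩
    · exact ⟨0, fun h1 => absurd h1 hE⟩
  choose yf hyf using hex0
  obtain ⟨EE, hEE⟩ : ∃ EE : Finset (Finset ℕ), EE = ((Finset.range (z + 1)).filter Nat.Prime).powerset :=
    ⟨_, rfl⟩
  have hEP : ∀ c : ℤ, EP z c ∈ EE := by
    intro c
    rw [hEE, mem_powerset, EP]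
    exact filter_subset _ _
  have hEp : ∀ E ∈ EE, ∀ p ∈ E, p.Prime := by
    intro E hE p hp
    rw [hEE, mem_powerset] at hE
    exact (mem_filter.1 (hE hp)).2
  set η : ℝ := ε / (16 * k) with hη
  have hη0 : 0 < η := by rw [hη]; positivity
  obtain ⟨y₁, hy₁⟩ := exists_nat_ge (16 / (ε * η))
  set y : ℕ := max (∑ E ∈ EE, yf E) (max y₁ 1) with hyd
  have hy0 : 0 < y := lt_of_lt_of_le one_pos ((le_max_right y₁ 1).trans (le_max_right _ _))
  have hyε : 16 / (ε * η) ≤ y := hy₁.trans (by exact_mod_cast (le_max_left y₁ 1).trans (le_max_right _ _))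
  have hyE : ∀ E ∈ EE, yf E ≤ y := fun E hE =>
    (single_le_sum (f := yf) (fun _ _ => Nat.zero_le _) hE).trans (le_max_left _ _)
  obtain ⟨M, hM⟩ := smooth_tail_rel y (ε := ε / 4) (by positivity)
  have hex : ∀ (E : Finset ℕ) (m : ℕ), ∃ h : Fin k → ℕ, E ∈ EE → 0 < m →
      (∀ p : ℕ, p.Prime → p ∣ m → p ≤ y) →
      Nat.Coprime m (MM E) → StrictMono h ∧ (∀ i, 0 < h i) ∧ (∀ i, h i ≡ ρ₀ i [MOD MM E]) ∧
      (∀ i j, i < j → cf (MM E) (h j - h i) ∣ h i ∧ m ∣ h i / cf (MM E) (h j - h i)) ∧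
      sg y (∏ i, h i) ≤ ε / 16 := by
    intro E m
    by_cases h1 : E ∈ EE ∧ 0 < m ∧ (∀ p : ℕ, p.Prime → p ∣ m → p ≤ y) ∧ Nat.Coprime m (MM E)
    · obtain ⟨h, h2⟩ := hyf E (hEp E h1.1) y (hyE E h1.1) m h1.2.1 h1.2.2.1 h1.2.2.2 ρ₀
      exact ⟨h, fun _ _ _ _ => h2⟩
    · exact ⟨fun _ => 0, fun h2 h3 h4 h5 => absurd ⟨h2, h3, h4, h5⟩ h1⟩
  choose hs hh using hex
  obtain ⟨H₁, hH₁⟩ : ∃ H₁, H₁ = ∑ E ∈ EE, ∑ m ∈ range (M + 1), ∏ i, hs E m i := ⟨_, rfl⟩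
  have hHH : ∀ E ∈ EE, ∀ m ≤ M, ∏ i, hs E m i ≤ H₁ := by
    intro E hE m hm
    have h2 : ∏ i, hs E m i ≤ ∑ m ∈ range (M + 1), ∏ i, hs E m i :=
      single_le_sum (f := fun m => ∏ i, hs E m i) (fun _ _ => Nat.zero_le _) (mem_range.2 (by omega))
    have h3 : ∑ m ∈ range (M + 1), ∏ i, hs E m i ≤
        ∑ E ∈ EE, ∑ m ∈ range (M + 1), ∏ i, hs E m i :=
      single_le_sum (f := fun E => ∑ m ∈ range (M + 1), ∏ i, hs E m i)
        (fun _ _ => Nat.zero_le _) hE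
    omega
  obtain ⟨K₀, hK₀⟩ := loss_smallT hk0 hy0 hε hyε M H₁
  obtain ⟨K₁, hK₁⟩ := exists_nat_gt ((y + 1) / (ε / 4))
  set K : ℕ := M + 4 + ∑ E ∈ EE, ∑ m ∈ range (M + 1), ∑ i, hs E m i + (K₀ + K₁) with hK
  have hhK : ∀ E ∈ EE, ∀ m ≤ M, ∀ i, hs E m i ≤ K := by
    intro E hE m hm i
    have h1 : hs E m i ≤ ∑ i, hs E m i :=
      single_le_sum (f := hs E m) (fun _ _ => Nat.zero_le _) (mem_univ i)
    have h2 : ∑ i, hs E m i ≤ ∑ m ∈ range (M + 1), ∑ i, hs E m i :=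
      single_le_sum (f := fun m => ∑ i, hs E m i) (fun _ _ => Nat.zero_le _) (mem_range.2 (by omega))
    have h3 : ∑ m ∈ range (M + 1), ∑ i, hs E m i ≤
        ∑ E ∈ EE, ∑ m ∈ range (M + 1), ∑ i, hs E m i :=
      single_le_sum (f := fun E => ∑ m ∈ range (M + 1), ∑ i, hs E m i)
        (fun _ _ => Nat.zero_le _) hE
    omega
  have hK1 : 1 ≤ K := by omega
  have hKr : (1 : ℝ) ≤ K := by exact_mod_cast hK1
  set Y : ℕ := y.factorial with hY
  have hY0 : 0 < Y := Nat.factorial_pos y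
  set ρ : ℝ := (Nat.totient Y : ℝ) / Y with hρ
  have hρ0 : 0 < ρ := by
    have h1 : (0 : ℝ) < Nat.totient Y := by exact_mod_cast Nat.totient_pos.2 hY0
    have h2 : (0 : ℝ) < Y := by exact_mod_cast hY0
    rw [hρ]; positivity
  set δ : ℝ := η * ρ / (2 * (M + 1) * K ^ 3) with hδ
  have hδ0 : 0 < δ := by rw [hδ]; positivity
  refine ⟨K, δ, hδ0, fun c hc => ?_⟩
  obtain ⟨E₀, hE₀⟩ : ∃ E₀, E₀ = EP z c := ⟨_, rfl⟩
  have hE₀E : E₀ ∈ EE := by rw [hE₀]; exact hEP c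
  obtain ⟨h, hhd⟩ : ∃ h, h = hs E₀ := ⟨_, rfl⟩
  have hhK' : ∀ m ≤ M, ∀ i, h m i ≤ K := by rw [hhd]; exact hhK E₀ hE₀E
  have hh' := hh E₀
  rw [← hhd] at hh'
  have hC : 0 < c.natAbs := Int.natAbs_pos.2 hc
  set C := c.natAbs with hCdef
  set P : ℕ := Y * C with hPdef
  have hP0 : 0 < P := Nat.mul_pos hY0 hC
  have hCP : C ∣ P := Dvd.intro_left _ rfl
  have hCr : (0 : ℝ) < C := by exact_mod_cast hC
  have hphiC : (0 : ℝ) < Nat.totient C := by exact_mod_cast Nat.totient_pos.2 hC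
  set E : ℝ := (Nat.totient C : ℝ) / C with hE
  have hE0 : 0 < E := by rw [hE]; positivity
  -- the classes
  set MMs : Finset ℕ := {m ∈ Icc 1 M | cs P m = m ∧ Nat.Coprime m C} with hMMs
  have hMMs' : ∀ m ∈ MMs, ∀ p : ℕ, p.Prime → p ∣ m → p ≤ y := by
    intro m hm p hp hpm
    rw [hMMs, mem_filter] at hm
    have h1 : p ∣ P := by
      have := hpm
      rw [← hm.2.1] at this
      exact cs_prime hp this
    rcases (hp.dvd_mul).1 h1 with h2 | h2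
    · exact (hp.dvd_factorial).1 h2
    · have h6 := Nat.dvd_gcd hpm h2
      rw [hm.2.2] at h6
      exact absurd (Nat.dvd_one.1 h6) hp.one_lt.ne'
  have hMMs0 : ∀ m ∈ MMs, 0 < m ∧ m ≤ M := by
    intro m hm
    rw [hMMs, mem_filter, mem_Icc] at hm
    exact hm.1
  have hMMc : ∀ m ∈ MMs, Nat.Coprime m (MM E₀) := by
    intro m hm
    rw [hMMs, mem_filter] at hm
    by_contra hcon
    obtain ⟨p, hp, h1, h2⟩ := Nat.Prime.not_coprime_iff_dvd.1 hcon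
    have h4 := (MM_prime (hEp E₀ hE₀E) hp).1 h2
    rw [hE₀] at h4
    have h3 := Nat.dvd_gcd h1 (mem_EP.1 h4).2
    rw [hm.2.2] at h3
    exact hp.one_lt.ne' (Nat.dvd_one.1 h3)
  have hhH : ∀ m ≤ M, ∏ i, h m i ≤ H₁ := by rw [hhd]; exact hHH E₀ hE₀E
  have hN₁ : ∀ m ∈ MMs, ∀ N : ℕ, K₀ * C ^ 2 ≤ N → 0 < N →
      loss k y m P (∏ i, h m i) η η N < ε / 2 * (dens P m * N) := by
    intro m hm N h1 h2
    have h3 := hh' m hE₀E (hMMs0 m hm).1 (hMMs' m hm) (hMMc m hm)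
    exact hK₀ m _ C N (hMMs0 m hm).1 (hMMs0 m hm).2 (prod_pos fun i _ => h3.2.1 i)
      (hhH m (hMMs0 m hm).2) hC h3.2.2.2.2 h1 h2
  intro N hN hN0 S hSsub hSbig
  have hNj : ∀ j, K * C ^ 2 ≤ N j := fun j => hN0.trans (hN (Nat.zero_le j))
  have hC2 : 0 < C ^ 2 := pow_pos hC 2
  have hNpos : ∀ j, 0 < N j := fun j => lt_of_lt_of_le (Nat.mul_pos hK1 hC2) (hNj j)
  have hNK₀ : ∀ j, K₀ * C ^ 2 ≤ N j := fun j =>
    (Nat.mul_le_mul_right _ (by omega)).trans (hNj j)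
  have hNK₁ : ∀ j, K₁ * C ≤ N j := fun j => by
    refine le_trans ?_ (hNj j)
    have h1 : C ≤ C ^ 2 := Nat.le_self_pow (by norm_num) C
    exact Nat.mul_le_mul (by omega) h1
  -- the dominating class
  have hclass : ∀ j, ∃ m ∈ MMs, ε / 2 * (dens P m * N j) ≤ #{b ∈ S j | b ∈ CC P m (N j)} := by
    intro j
    by_contra hcon
    push Not at hcon
    have hsub : S j ⊆ {b ∈ PC C (N j) | M < cs Y b} ∪
        MMs.biUnion fun m => {b ∈ S j | b ∈ CC P m (N j)} := by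
      intro b hb
      have hb2 := mem_PC.1 (hSsub j hb)
      rw [mem_union, mem_filter, mem_biUnion]
      by_cases h1 : M < cs Y b
      · exact Or.inl ⟨hSsub j hb, h1⟩
      · right
        have h2 : cs P b = cs Y b := cs_mul_right hY0 hC hb2.1.1 hb2.2
        refine ⟨cs P b, ?_, ?_⟩
        · rw [hMMs, mem_filter, mem_Icc]
          refine ⟨⟨cs_pos hb2.1.1, by omega⟩, cs_idem hP0 hb2.1.1, ?_⟩
          exact hb2.2.coprime_dvd_left (cs_dvd P b)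
        · rw [mem_filter, mem_CC]
          exact ⟨hb, hb2.1, rfl⟩
    have h1 : (#(S j) : ℝ) ≤ #{b ∈ PC C (N j) | M < cs Y b} +
        ∑ m ∈ MMs, (#{b ∈ S j | b ∈ CC P m (N j)} : ℝ) := by
      exact_mod_cast (card_le_card hsub).trans ((card_union_le _ _).trans
        (Nat.add_le_add_left card_biUnion_le _))
    have h2 := hM C hC (N j)
    have h3 : ∑ m ∈ MMs, (#{b ∈ S j | b ∈ CC P m (N j)} : ℝ) ≤ ε / 2 * (E * N j) := by
      calc ∑ m ∈ MMs, (#{b ∈ S j | b ∈ CC P m (N j)} : ℝ)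
          ≤ ∑ m ∈ MMs, ε / 2 * (dens P m * N j) := sum_le_sum fun m hm => (hcon m hm).le
        _ = ε / 2 * ((∑ m ∈ MMs, dens P m) * N j) := by rw [← mul_sum, sum_mul]
        _ ≤ ε / 2 * (E * N j) := by
            have h4 := dens_sum_rel hP0 hC hCP MMs (fun m hm => by
              rw [hMMs, mem_filter, mem_Icc] at hm
              exact ⟨hm.1.1, hm.2.1, hm.2.2⟩)
            gcongr
    have h5 : (y + 1) * (Nat.totient C : ℝ) < ε / 4 * (E * N j) := by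
      rw [div_lt_iff₀ (by positivity)] at hK₁
      have h6 : (K₁ : ℝ) * C ≤ N j := by exact_mod_cast hNK₁ j
      calc (y + 1) * (Nat.totient C : ℝ) < K₁ * (ε / 4) * Nat.totient C := by gcongr
        _ = ε / 4 * (E * (K₁ * C)) := by
            rw [hE]
            field_simp
        _ ≤ ε / 4 * (E * N j) := by gcongr
    have h6 := hSbig j
    rw [← hE] at h2
    linarith
  choose mf hmf1 hmf2 using hclass
  -- a class which occurs infinitely often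
  obtain ⟨m, hmM, hminf⟩ : ∃ m ∈ MMs, {j | mf j = m}.Infinite := by
    by_contra hcon
    push Not at hcon
    have h1 : (⋃ m ∈ MMs, {j | mf j = m}).Finite :=
      Set.Finite.biUnion (Finset.finite_toSet MMs) fun m hm => hcon m hm
    refine Set.infinite_univ (h1.subset fun j _ => ?_)
    exact Set.mem_biUnion (hmf1 j) rfl
  obtain ⟨f, hf, hfm⟩ := Nat.exists_strictMono_subsequence (P := fun j => mf j = m) (fun n => by
    obtain ⟨j, hj, hjn⟩ := hminf.exists_gt n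
    exact ⟨j, hjn, hj⟩)
  obtain ⟨hm0, hmM'⟩ := hMMs0 m hmM
  obtain ⟨hmono, hpos, hres, hdvd, hsg⟩ := hh' m hE₀E hm0 (hMMs' m hmM) (hMMc m hmM)
  rw [hE₀] at hres hdvd
  have hmC : Nat.Coprime m C := (mem_filter.1 hmM).2.2
  have hmZ : IsCoprime (m : ℤ) c := by
    rw [Int.isCoprime_iff_gcd_eq_one, Int.gcd, Int.natAbs_natCast]
    exact hmC
  obtain ⟨i, j, hij, hjk, b, hb, hlink⟩ := class_links4 (L := LinkT z c m K) hc hy0 hm0 (P := P) rfl hmC hpos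
    (fun A hA hAc hAA hAh => H z c hc m K (h m) hmono hpos hres hdvd (hhK' m hmM') hmZ A hA hAc hAA hAh)
    hη0 hη0.le (N := fun j => N (f j)) (hNpos (f 0))
    (fun i j hij => hN (hf.monotone hij)) (S := fun j => {b ∈ S (f j) | b ∈ CC P m (N (f j))})
    (fun j _ x hx => (mem_filter.1 hx).2)
    (fun j _ => by
      have h3 := hN₁ m hmM (N (f j)) (hNK₀ _) (hNpos _)
      have h4 := hmf2 (f j)
      rw [hfm j] at h4
      exact lt_of_lt_of_le h3 h4)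
  replace hb : b ∈ ({b ∈ S (f i) | b ∈ CC P m (N (f i))} : Finset ℕ) := hb
  rw [mem_filter, mem_CC] at hb
  obtain ⟨hbS, ⟨hb1, hb2⟩, hbm⟩ := hb
  have hbeq : cf P b * m = b := by
    have := cf_mul_cs P b
    rwa [hbm] at this
  refine ⟨f i, f j, hf hij, b, hbS, ?_⟩
  by_contra hcon
  push Not at hcon
  set T : Finset (ℕ × ℕ × ℕ) := {q ∈ Icc 1 K ×ˢ (Icc 1 K ×ˢ Icc 1 K) |
    GT z q.2.2 ∧ ∀ p : ℕ, p.Prime → p ∣ q.2.2 → (p : ℤ) ∣ c} with hT
  have hTcard : #T ≤ K ^ 3 := by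
    refine (card_filter_le _ _).trans (le_of_eq ?_)
    rw [card_product, card_product, Nat.card_Icc, Nat.add_sub_cancel]
    ring
  have hsub : {x : ℕ | x ∈ ({b ∈ S (f j) | b ∈ CC P m (N (f j))} : Finset ℕ) ∧
      LinkT z c m K (cf P b) (cf P x)} ⊆ ((T.biUnion fun q => {x ∈ S (f j) | m ∣ x ∧
        TrueCase (q.1 * (x / m)) (q.2.1 * b) (c * q.2.2)} : Finset ℕ) : Set ℕ) := by
    rintro x ⟨hx, u, v, t, hu, huK, hv, hvK, hmv, ht, htK, htG, htc, htrue⟩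
    rw [mem_filter, mem_CC] at hx
    obtain ⟨hxS, ⟨hx1, hx2⟩, hxm⟩ := hx
    have hxeq : cf P x * m = x := by
      have := cf_mul_cs P x
      rwa [hxm] at this
    have hxd : x / m = cf P x := by
      conv_lhs => rw [← hxeq]
      exact Nat.mul_div_cancel _ hm0
    obtain ⟨w, rfl⟩ := hmv
    have hw0 : 0 < w := Nat.pos_of_mul_pos_left hv
    rw [mem_coe, mem_biUnion]
    refine ⟨(u, w, t), ?_, ?_⟩
    · rw [hT, mem_filter, mem_product, mem_product, mem_Icc, mem_Icc, mem_Icc]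
      exact ⟨⟨⟨hu, huK⟩, ⟨hw0, (Nat.le_mul_of_pos_left w hm0).trans hvK⟩, ht, htK⟩,
        htG, htc⟩
    · rw [mem_filter]
      refine ⟨hxS, ⟨cf P x, by rw [mul_comm]; exact hxeq.symm⟩, ?_⟩
      simp only
      rw [hxd]
      have e : w * b = m * w * cf P b := by
        conv_lhs => rw [← hbeq]
        ring
      rw [e]
      exact htrue
  have h1 := Set.ncard_le_ncard hsub (Finset.finite_toSet _)
  rw [Set.ncard_coe_finset] at h1
  have h2 : ∀ q ∈ T, (#{x ∈ S (f j) | m ∣ x ∧ TrueCase (q.1 * (x / m)) (q.2.1 * b) (c * q.2.2)} : ℝ) ≤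
      δ * (E * N (f j)) := by
    intro q hq
    rw [hT, mem_filter, mem_product, mem_product, mem_Icc, mem_Icc, mem_Icc] at hq
    obtain ⟨⟨⟨hu, huK⟩, ⟨hw, hwK⟩, ht, htK⟩, htG, htc⟩ := hq
    have h3 := hcon q.1 m q.2.1 q.2.2 hu huK hm0 (by omega) hw hwK ht htK htG htc
    refine le_trans (le_of_eq ?_) h3.le
    rw [← Set.ncard_coe_finset]
    congr 2
    ext x
    simp
  have h3 : ((Set.ncard {x : ℕ | x ∈ ({b ∈ S (f j) | b ∈ CC P m (N (f j))} : Finset ℕ) ∧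
      LinkT z c m K (cf P b) (cf P x)} : ℕ) : ℝ) ≤ K ^ 3 * (δ * (E * N (f j))) := by
    calc ((Set.ncard {x : ℕ | x ∈ ({b ∈ S (f j) | b ∈ CC P m (N (f j))} : Finset ℕ) ∧
          LinkT z c m K (cf P b) (cf P x)} : ℕ) : ℝ)
        ≤ ((∑ q ∈ T, #{x ∈ S (f j) | m ∣ x ∧
          TrueCase (q.1 * (x / m)) (q.2.1 * b) (c * q.2.2)} : ℕ) : ℝ) := by
          exact_mod_cast h1.trans card_biUnion_le
      _ = ∑ q ∈ T, (#{x ∈ S (f j) | m ∣ x ∧
          TrueCase (q.1 * (x / m)) (q.2.1 * b) (c * q.2.2)} : ℝ) := by push_cast; rfl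
      _ ≤ ∑ q ∈ T, δ * (E * N (f j)) := sum_le_sum h2
      _ = #T * (δ * (E * N (f j))) := by rw [sum_const, nsmul_eq_mul]
      _ ≤ _ := by
          have h4 : (#T : ℝ) ≤ K ^ 3 := by exact_mod_cast hTcard
          gcongr
  have h4 : ρ * E / (M + 1) ≤ dens P m := by
    have h5 : (Nat.totient Y : ℝ) * Nat.totient C ≤ Nat.totient P := by
      exact_mod_cast Nat.totient_super_multiplicative Y C
    have hYr : (0 : ℝ) < Y := by exact_mod_cast hY0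
    have hmr : (0 : ℝ) < m := by exact_mod_cast hm0
    have hmM2 : (m : ℝ) ≤ M + 1 := by exact_mod_cast (by omega : m ≤ M + 1)
    unfold Pool.Agent.helper85.QC.dens
    rw [hρ, hE, hPdef]
    push_cast
    calc (Nat.totient Y : ℝ) / Y * (Nat.totient C / C) / (M + 1)
        = (Nat.totient Y * Nat.totient C) / (Y * C * (M + 1)) := by field_simp
      _ ≤ Nat.totient (Y * C) / (Y * C * m) := by
          gcongr
  have hNr : (0 : ℝ) < N (f j) := by exact_mod_cast hNpos (f j)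
  have h5 : (K : ℝ) ^ 3 * (δ * (E * N (f j))) = η * (ρ * E / (M + 1) * N (f j)) / 2 := by
    rw [hδ]
    field_simp
  have h6 : η * (ρ * E / (M + 1) * N (f j)) ≤ η * (dens P m * N (f j)) := by gcongr
  have h7 : 0 < η * (ρ * E / (M + 1) * N (f j)) := by positivity
  linarith

end Pool.Agent.helper25.FB
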