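import Pool.Agent.helper39.MT.R1c
import Pool.Agent.helper85.QC.TPC

/-!
# MP_bf63dc_nt, every `c`: sets of shifts with prescribed residues

For `M > 0` and residues `ρ i` there are integers `h i` with `h i ≡ ρ i` modulo `M` such that the
part of `h j - h i` prime to `M` divides `h i` (`i < j`): Heath-Brown's sets outside `M`.
-/

namespace Pool.Agent.helper25.FB

open Finset Pool.Agent.helper39.MT

theorem dvd_cf {M n d : ℕ} (hd : d ∣ n) (hdM : Nat.Coprime d M) : d ∣ cf M n := by
  have h1 : Nat.Coprime d (cs M n) := by
    by_contra hcon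
    obtain ⟨p, hp, h1, h2⟩ := Nat.Prime.not_coprime_iff_dvd.1 hcon
    have h3 := Nat.dvd_gcd h1 (cs_prime hp h2)
    rw [hdM] at h3
    exact hp.one_lt.ne' (Nat.dvd_one.1 h3)
  refine h1.dvd_of_dvd_mul_right ?_
  rw [cf_mul_cs]
  exact hd

theorem cf_self {M n : ℕ} (hM : 0 < M) (hn : 0 < n) (h : Nat.Coprime n M) : cf M n = n :=
  Nat.dvd_antisymm (cf_dvd M n) (dvd_cf dvd_rfl h)

/-- Sets of Heath-Brown's type with prescribed residues. -/
theorem hb_res (M : ℕ) (hM : 0 < M) : ∀ (k : ℕ) (ρ : Fin k → ℕ), ∃ h : Fin k → ℕ, StrictMono h ∧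
    (∀ i, 0 < h i) ∧ (∀ i, h i ≡ ρ i [MOD M]) ∧ ∀ i j, i < j → cf M (h j - h i) ∣ h i := by
  intro k
  induction k with
  | zero =>
    intro ρ
    exact ⟨fun i => i.elim0, fun i => i.elim0, fun i => i.elim0, fun i => i.elim0, fun i => i.elim0⟩
  | succ k ih =>
    intro ρ
    obtain ⟨h, hmono, hpos, hres, hdvd⟩ := ih (fun i => ρ i.succ + (M - 1) * ρ 0)
    obtain ⟨P, hP⟩ : ∃ P, P = ∏ i, cf M (h i) := ⟨_, rfl⟩
    have hP0 : 0 < P := by
      rw [hP]
      exact Finset.prod_pos fun i _ => cf_pos (hpos i)
    have hPM : Nat.Coprime P M := by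
      rw [hP]
      exact Nat.Coprime.prod_left fun i _ => cf_coprime hM (hpos i)
    obtain ⟨x, hx1, hx2⟩ := Nat.chineseRemainder hPM 0 (ρ 0)
    obtain ⟨H, hH⟩ : ∃ H, H = x + P * M := ⟨_, rfl⟩
    have hHpos : 0 < H := by
      have := Nat.mul_pos hP0 hM
      omega
    have hPH : P ∣ H := by
      rw [hH]
      exact dvd_add ((Nat.modEq_zero_iff_dvd).1 hx1) (dvd_mul_right _ _)
    have hHρ : H ≡ ρ 0 [MOD M] := by
      rw [hH]
      have h1 : x + P * M ≡ ρ 0 + 0 [MOD M] :=
        Nat.ModEq.add hx2 ((Nat.modEq_zero_iff_dvd).2 (dvd_mul_left _ _))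
      simpa using h1
    have hiH : ∀ i, cf M (h i) ∣ H := fun i =>
      (show cf M (h i) ∣ P by rw [hP]; exact Finset.dvd_prod_of_mem _ (Finset.mem_univ i)).trans hPH
    refine ⟨Fin.cons H (fun i => H + h i), ?_, ?_, ?_, ?_⟩
    · intro i j hij
      induction i using Fin.cases with
      | zero =>
        induction j using Fin.cases with
        | zero => exact absurd hij (lt_irrefl _)
        | succ j =>
          simp only [Fin.cons_zero, Fin.cons_succ]
          have := hpos j
          omega
      | succ i =>
        induction j using Fin.cases with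
        | zero => exact absurd hij (by simp)
        | succ j =>
          simp only [Fin.cons_succ]
          have := hmono (Fin.succ_lt_succ_iff.mp hij)
          omega
    · intro i
      induction i using Fin.cases with
      | zero => simpa using hHpos
      | succ i => simp only [Fin.cons_succ]; omega
    · intro i
      induction i using Fin.cases with
      | zero => simpa using hHρ
      | succ i =>
        simp only [Fin.cons_succ]
        have h1 := Nat.ModEq.add hHρ (hres i)
        refine h1.trans ?_
        have h2 : ρ 0 + (ρ i.succ + (M - 1) * ρ 0) = ρ i.succ + M * ρ 0 := by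
          obtain ⟨m, rfl⟩ : ∃ m, M = m + 1 := ⟨M - 1, by omega⟩
          simp only [Nat.add_sub_cancel]
          ring
        rw [h2]
        have h3 : ρ i.succ + M * ρ 0 ≡ ρ i.succ + 0 [MOD M] :=
          Nat.ModEq.add_left _ ((Nat.modEq_zero_iff_dvd).2 (dvd_mul_right _ _))
        simpa using h3
    · intro i j hij
      induction i using Fin.cases with
      | zero =>
        induction j using Fin.cases with
        | zero => exact absurd hij (lt_irrefl _)
        | succ j =>
          simp only [Fin.cons_zero, Fin.cons_succ, Nat.add_sub_cancel_left]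
          exact hiH j
      | succ i =>
        induction j using Fin.cases with
        | zero => exact absurd hij (by simp)
        | succ j =>
          simp only [Fin.cons_succ, Nat.add_sub_add_left]
          have h1 := hdvd i j (Fin.succ_lt_succ_iff.mp hij)
          have hlt := hmono (Fin.succ_lt_succ_iff.mp hij)
          have h2 : Nat.Coprime (cf M (h j - h i)) M := cf_coprime hM (by omega)
          exact dvd_add ((dvd_cf h1 h2).trans (hiH i)) h1

end Pool.Agent.helper25.FB
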