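import Pool.Agent.helper25.FB.Hb

/-!
# MP_bf63dc_nt, every `c`: the pairs
-/

namespace Pool.Agent.helper25.FB

open Finset Pool.Agent.helper39.MT

open Classical in
/-- The admissible pairs `(a, b)` for which `a p - b q = c t₁ t₂` has infinitely many prime
solutions for some `t₁ ≤ 4`, `t₂ ≤ K`, where the primes dividing `t₁ t₂` divide `c` and the primes
dividing `t₂` are greater than `y`. -/
noncomputable def GoodY (y K : ℕ) (c : ℤ) (N : ℕ) : Finset (ℕ × ℕ) :=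
  {ab ∈ AdmP c N | ∃ t₁ t₂ : ℕ, 1 ≤ t₁ ∧ t₁ ≤ 4 ∧ 1 ≤ t₂ ∧ t₂ ≤ K ∧
    (∀ p : ℕ, p.Prime → p ∣ t₁ * t₂ → (p : ℤ) ∣ c) ∧ (∀ p : ℕ, p.Prime → p ∣ t₂ → y < p) ∧
    InfSol ab.1 ab.2 (c * (t₁ * t₂ : ℕ))}

/-- the cube of the product of a set of primes -/
def MM (E : Finset ℕ) : ℕ := (∏ p ∈ E, p) ^ 3

theorem MM_prime {E : Finset ℕ} (hE : ∀ p ∈ E, p.Prime) {p : ℕ} (hp : p.Prime) :
    p ∣ MM E ↔ p ∈ E := by
  unfold MM
  constructor
  · intro h
    obtain ⟨q, hq, hpq⟩ := (Prime.dvd_finsetProd_iff hp.prime _).1 (hp.dvd_of_dvd_pow h)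
    rw [(Nat.prime_dvd_prime_iff_eq hp (hE q hq)).1 hpq]
    exact hq
  · intro h
    exact dvd_pow (Finset.dvd_prod_of_mem _ h) (by norm_num)

theorem MM_pos {E : Finset ℕ} (hE : ∀ p ∈ E, p.Prime) : 0 < MM E :=
  pow_pos (Finset.prod_pos fun p hp => (hE p hp).pos) _

theorem MM_cube {E : Finset ℕ} {p : ℕ} (h : p ∈ E) : p ^ 3 ∣ MM E :=
  pow_dvd_pow_of_dvd (Finset.dvd_prod_of_mem _ h) 3

/-- the part of `D` composed of the primes of `E`, if `D ≡ ± d` modulo `MM E` with `1 ≤ d ≤ 4` -/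
theorem part_le {E : Finset ℕ} (hE : ∀ p ∈ E, p.Prime) {D : ℕ} (hD : 0 < D) {d : ℕ} (hd : 0 < d)
    (hd4 : d ≤ 4) (h : ∀ p ∈ E, (p ^ 3 ∣ D → p ^ 3 ∣ d) ∧ (∀ v ≤ 2, p ^ v ∣ D → p ^ v ∣ d)) :
    cs (MM E) D ∣ d := by
  refine (Nat.factorization_prime_le_iff_dvd (cs_pos hD).ne' hd.ne').1 fun p hp => ?_
  rw [cs_factorization (MM_pos hE) hD hp]
  split_ifs with h1
  · have hpE := (MM_prime hE hp).1 h1
    obtain ⟨h2, h3⟩ := h p hpE
    have h4 : D.factorization p ≤ 2 := by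
      by_contra hcon
      have h5 : p ^ 3 ∣ D := (pow_dvd_pow p (by omega)).trans (Nat.ordProj_dvd D p)
      have h6 := Nat.le_of_dvd hd (h2 h5)
      have h7 : 2 ^ 3 ≤ p ^ 3 := Nat.pow_le_pow_left hp.two_le 3
      omega
    exact (hp.pow_dvd_iff_le_factorization hd.ne').1 (h3 _ h4 (Nat.ordProj_dvd D p))
  · exact Nat.zero_le _

/-- two values give a good pair of coefficients. -/
theorem pair_good {c : ℤ} (hc : c ≠ 0) {y N K : ℕ} {E : Finset ℕ} (hE : ∀ p ∈ E, p.Prime)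
    (hEc : ∀ p ∈ E, p ∣ c.natAbs) (hEy : ∀ p : ℕ, p.Prime → p ≤ y → p ∣ c.natAbs → p ∈ E)
    {h₁ h₂ A₁ A₂ : ℕ} (hlt : h₁ < h₂) (h₁0 : 0 < h₁) (hdvd : cf (MM E) (h₂ - h₁) ∣ h₁)
    (hres : cs (MM E) (h₂ - h₁) ≤ 4) (hK₂ : h₂ ≤ K)
    (hA₁ : 0 < A₁) (hA₂ : 0 < A₂)
    (hAK₁ : ∀ p : ℕ, p.Prime → p ≤ K → ¬ p ∣ A₁) (hAK₂ : ∀ p : ℕ, p.Prime → p ≤ K → ¬ p ∣ A₂)
    (hAA : Nat.Coprime A₁ A₂) (hN₁ : h₁ * A₁ ≤ N) (hN₂ : h₂ * A₂ ≤ N)
    (hsol : InfSol (cf c.natAbs h₂ * A₂) (cf c.natAbs h₁ * A₁) (c * h₂ - c * h₁)) :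
    (cf c.natAbs (h₂ / cf c.natAbs (h₂ - h₁)) * A₂,
      cf c.natAbs (h₁ / cf c.natAbs (h₂ - h₁)) * A₁) ∈ GoodY y K c N := by
  classical
  have hC : 0 < c.natAbs := Int.natAbs_pos.2 hc
  set C := c.natAbs with hCdef
  have hM0 : 0 < MM E := MM_pos hE
  have hMC : ∀ p : ℕ, p.Prime → p ∣ MM E → p ∣ C := fun p hp h => hEc p ((MM_prime hE hp).1 h)
  obtain ⟨D, hDdef⟩ : ∃ D, D = h₂ - h₁ := ⟨_, rfl⟩
  rw [← hDdef] at hdvd hres ⊢
  have hD0 : 0 < D := by omega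
  obtain ⟨g, hg⟩ : ∃ g, g = cf C D := ⟨_, rfl⟩
  rw [← hg]
  have hg0 : 0 < g := by rw [hg]; exact cf_pos hD0
  have hgC : Nat.Coprime g C := by rw [hg]; exact cf_coprime hC hD0
  have hgD : g ∣ D := by rw [hg]; exact cf_dvd C D
  have hgM : Nat.Coprime g (MM E) := by
    by_contra hcon
    obtain ⟨p, hp, h1, h2⟩ := Nat.Prime.not_coprime_iff_dvd.1 hcon
    have h3 := Nat.dvd_gcd h1 (hMC p hp h2)
    rw [hgC] at h3
    exact hp.one_lt.ne' (Nat.dvd_one.1 h3)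
  have hg1 : g ∣ h₁ := (dvd_cf hgD hgM).trans hdvd
  have hg2 : g ∣ h₂ := by
    have : h₂ = h₁ + D := by omega
    rw [this]
    exact dvd_add hg1 hgD
  obtain ⟨x, rfl⟩ := hg1
  obtain ⟨z, rfl⟩ := hg2
  rw [Nat.mul_div_cancel_left _ hg0, Nat.mul_div_cancel_left _ hg0]
  obtain ⟨t, ht⟩ : ∃ t, t = cs C D := ⟨_, rfl⟩
  have hDt : D = g * t := by rw [hg, ht, cf_mul_cs]
  have hzx : z = x + t := by
    have h1 : g * z = g * (x + t) := by
      rw [mul_add, ← hDt]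
      omega
    exact Nat.eq_of_mul_eq_mul_left hg0 h1
  have ht0 : 0 < t := by rw [ht]; exact cs_pos hD0
  have hx0 : 0 < x := Nat.pos_of_mul_pos_left h₁0
  have hz0 : 0 < z := by omega
  have hcfg : cf C g = g := cf_self hC hg0 hgC
  have hsol' : InfSol (cf C z * A₂) (cf C x * A₁) (c * t) := by
    apply InfSol.cancel' hg0
    have e1 : g * (cf C z * A₂) = cf C (g * z) * A₂ := by
      rw [cf_mul hC hg0 hz0, hcfg]; ring
    have e2 : g * (cf C x * A₁) = cf C (g * x) * A₁ := by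
      rw [cf_mul hC hg0 hx0, hcfg]; ring
    have e3 : (g : ℤ) * (c * t) = c * ((g * z : ℕ) : ℤ) - c * ((g * x : ℕ) : ℤ) := by
      rw [hzx]
      push_cast
      ring
    rw [e1, e2, e3]
    exact hsol
  have htp : ∀ p : ℕ, p.Prime → p ∣ t → p ∣ C := fun p hp h => cs_prime hp (by rw [← ht]; exact h)
  have hxK : x ≤ K := (Nat.le_mul_of_pos_left x hg0).trans (hlt.le.trans hK₂)
  have hzK : z ≤ K := (Nat.le_mul_of_pos_left z hg0).trans hK₂
  have hcopK : ∀ z A : ℕ, 0 < z → z ≤ K → (∀ p : ℕ, p.Prime → p ≤ K → ¬ p ∣ A) →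
      Nat.Coprime z A := by
    intro z A hz hzK hA
    by_contra hcon
    obtain ⟨p, hp, h1, h2⟩ := Nat.Prime.not_coprime_iff_dvd.1 hcon
    exact hA p hp ((Nat.le_of_dvd hz h1).trans hzK) h2
  have hcop : Nat.Coprime (cf C z * A₂) (cf C x * A₁) := by
    refine Nat.Coprime.mul_left (Nat.Coprime.mul_right ?_ ?_) (Nat.Coprime.mul_right ?_ ?_)
    · by_contra hcon
      obtain ⟨p, hp, h1, h2⟩ := Nat.Prime.not_coprime_iff_dvd.1 hcon
      have h3 : p ∣ z := h1.trans (cf_dvd C z)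
      have h4 : p ∣ x := h2.trans (cf_dvd C x)
      have h5 : p ∣ t := by
        rw [hzx] at h3
        exact (Nat.dvd_add_right h4).1 h3
      have h6 := Nat.dvd_gcd h1 (htp p hp h5)
      rw [cf_coprime hC hz0] at h6
      exact hp.one_lt.ne' (Nat.dvd_one.1 h6)
    · exact (hcopK _ _ hz0 hzK hAK₁).coprime_dvd_left (cf_dvd C z)
    · exact ((hcopK _ _ hx0 hxK hAK₂).coprime_dvd_left (cf_dvd C x)).symm
    · exact hAA.symm
  have hct : c * (t : ℤ) ≠ 0 := mul_ne_zero hc (by exact_mod_cast ht0.ne')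
  have hcond := InfSol.conditions (Nat.mul_pos (cf_pos hz0) hA₂) (Nat.mul_pos (cf_pos hx0) hA₁)
    hct hcop hsol'
  have hpar : Odd (c * (t : ℤ)) ↔ Odd c := by
    rw [Int.odd_mul]
    constructor
    · exact fun h => h.1
    · intro h
      refine ⟨h, ?_⟩
      by_contra hcon
      rw [Int.not_odd_iff_even] at hcon
      have h1 : 2 ∣ t := by
        have := hcon.two_dvd
        exact_mod_cast this
      have h2 := htp 2 Nat.prime_two h1
      have h3 : (2 : ℤ) ∣ c := by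
        have := Int.natCast_dvd.2 h2
        exact_mod_cast this
      exact (Int.not_even_iff_odd.2 h) (even_iff_two_dvd.2 h3)
  -- the two parts of `t`
  have ht1 : cs (MM E) t = cs (MM E) D := by
    refine Nat.eq_of_factorization_eq (cs_pos ht0).ne' (cs_pos hD0).ne' fun p => ?_
    by_cases hp : p.Prime
    · rw [cs_factorization hM0 ht0 hp, cs_factorization hM0 hD0 hp]
      split_ifs with h1
      · rw [ht, cs_factorization hC hD0 hp, if_pos (hMC p hp h1)]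
      · rfl
    · rw [Nat.factorization_eq_zero_of_not_prime _ hp, Nat.factorization_eq_zero_of_not_prime _ hp]
  have htt : cs (MM E) t * cf (MM E) t = t := by rw [mul_comm, cf_mul_cs]
  rw [GoodY, mem_filter]
  refine ⟨?_, cs (MM E) t, cf (MM E) t, cs_pos ht0, ?_, cf_pos ht0, ?_, ?_, ?_, ?_⟩
  · simp only [AdmP, mem_filter, mem_product, mem_Icc]
    refine ⟨⟨⟨Nat.mul_pos (cf_pos hz0) hA₂, ?_⟩, Nat.mul_pos (cf_pos hx0) hA₁, ?_⟩, hcop, ?_, ?_, ?_⟩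
    · refine le_trans ?_ hN₂
      refine Nat.mul_le_mul_right _ ?_
      exact (Nat.le_of_dvd hz0 (cf_dvd C _)).trans (Nat.le_mul_of_pos_left _ hg0)
    · refine le_trans ?_ hN₁
      refine Nat.mul_le_mul_right _ ?_
      exact (Nat.le_of_dvd hx0 (cf_dvd C _)).trans (Nat.le_mul_of_pos_left _ hg0)
    · exact hcond.1.of_mul_right_left
    · exact hcond.2.1.of_mul_right_left
    · rw [← hpar]
      exact hcond.2.2
  · rw [ht1]
    exact hres
  · refine (Nat.le_of_dvd ht0 (cf_dvd _ t)).trans ?_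
    have h1 : t ≤ D := by rw [hDt]; exact Nat.le_mul_of_pos_left t hg0
    omega
  · intro p hp hd
    rw [htt] at hd
    exact Int.natCast_dvd.2 (htp p hp hd)
  · intro p hp hd
    by_contra hcon
    have h1 : p ∈ E := hEy p hp (by omega) (htp p hp (hd.trans (cf_dvd _ t)))
    have h2 := Nat.dvd_gcd hd ((MM_prime hE hp).2 h1)
    rw [cf_coprime hM0 ht0] at h2
    exact hp.one_lt.ne' (Nat.dvd_one.1 h2)
  · rw [htt]
    exact hsol'

end Pool.Agent.helper25.FB
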