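import Pool.Agent.helper25.FB.Count
import Pool.Agent.helper25.FB.Pair

/-!
# MP_bf63dc_nt, every `c`: the main theorem
-/

namespace Pool.Agent.helper25.FB

open Finset Pool.Agent.helper39.MT Pool.Agent.helper85.FC

/-- the part composed of the primes of `E` of the difference of two shifts in different clusters -/
theorem cs_diff_le {E : Finset ℕ} (hE : ∀ p ∈ E, p.Prime) {h₁ h₂ s₁ s₂ : ℕ} (hlt : h₁ < h₂)
    (hs₁ : s₁ ≤ 4) (hs₂ : s₂ ≤ 4) (hne : s₁ ≠ s₂) (h1 : h₁ ≡ s₁ [MOD MM E])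
    (h2 : h₂ ≡ s₂ [MOD MM E]) : cs (MM E) (h₂ - h₁) ≤ 4 := by
  obtain ⟨d, hd⟩ : ∃ d, d = ((s₂ : ℤ) - s₁).natAbs := ⟨_, rfl⟩
  have hd0 : 0 < d := by omega
  have hd4 : d ≤ 4 := by omega
  have hkey : ∀ m : ℕ, m ∣ MM E → m ∣ h₂ - h₁ → m ∣ d := by
    intro m hm hmD
    have h3 : (m : ℤ) ∣ (MM E : ℤ) := Int.natCast_dvd_natCast.2 hm
    have h4 := h3.trans ((Nat.modEq_iff_dvd).1 h1)
    have h5 := h3.trans ((Nat.modEq_iff_dvd).1 h2)
    have h6 : (m : ℤ) ∣ ((h₂ - h₁ : ℕ) : ℤ) := Int.natCast_dvd_natCast.2 hmD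
    rw [Nat.cast_sub hlt.le] at h6
    have h7 : (m : ℤ) ∣ (s₂ : ℤ) - s₁ := by
      have h8 := dvd_add (dvd_sub h5 h4) h6
      have h9 : (s₂ : ℤ) - h₂ - (s₁ - h₁) + (h₂ - h₁) = s₂ - s₁ := by ring
      rwa [h9] at h8
    rw [hd]
    exact Int.natCast_dvd.1 h7
  refine (Nat.le_of_dvd hd0 (part_le hE (by omega) hd0 hd4 fun p hp => ⟨fun h => ?_,
    fun v hv h => ?_⟩)).trans hd4
  · exact hkey _ (MM_cube hp) h
  · exact hkey _ ((pow_dvd_pow p (by omega)).trans (MM_cube hp)) h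

theorem cf_dvd_cf {C M D : ℕ} (hC : 0 < C) (hD : 0 < D) (h : ∀ p : ℕ, p.Prime → p ∣ M → p ∣ C) :
    cf C D ∣ cf M D := by
  refine dvd_cf (cf_dvd C D) ?_
  by_contra hcon
  obtain ⟨p, hp, h1, h2⟩ := Nat.Prime.not_coprime_iff_dvd.1 hcon
  have h3 := Nat.dvd_gcd h1 (h p hp h2)
  rw [cf_coprime hC hD] at h3
  exact hp.one_lt.ne' (Nat.dvd_one.1 h3)

theorem map_inj {r s : ℕ} (hr : 0 < r) (hs : 0 < s) :
    Function.Injective fun AA : ℕ × ℕ => (r * AA.1, s * AA.2) := by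
  rintro ⟨a, b⟩ ⟨a', b'⟩ h
  simp only [Prod.mk.injEq] at h
  rw [Nat.eq_of_mul_eq_mul_left hr h.1, Nat.eq_of_mul_eq_mul_left hs h.2]

theorem map_inj' {r s : ℕ} (hr : 0 < r) (hs : 0 < s) :
    Function.Injective fun AA : ℕ × ℕ => (r * AA.2, s * AA.1) := by
  rintro ⟨a, b⟩ ⟨a', b'⟩ h
  simp only [Prod.mk.injEq] at h
  rw [Nat.eq_of_mul_eq_mul_left hr h.1, Nat.eq_of_mul_eq_mul_left hs h.2]

/-- **A positive proportion of the admissible pairs**: every `c`, with the part of `t` composed of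
primes `≤ y` at most `4`. -/
theorem pairs_every (y : ℕ) : ∃ K : ℕ, ∃ δ : ℝ, 0 < δ ∧ ∀ c : ℤ, c ≠ 0 →
    ∀ N : ℕ, K * c.natAbs ^ 2 ≤ N → δ * #(AdmP c N) ≤ #(GoodY y K c N) := by
  classical
  obtain ⟨kc, hkc, hmt⟩ := Pool.Agent.helper85.QC.two_primes_cluster
  have hex : ∀ E : Finset ℕ, ∃ h : Fin (5 * kc) → ℕ, (∀ p ∈ E, p.Prime) → StrictMono h ∧
      (∀ i, 0 < h i) ∧ (∀ i, h i ≡ ((cl i : Fin 5) : ℕ) [MOD MM E]) ∧
      ∀ i j, i < j → cf (MM E) (h j - h i) ∣ h i := by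
    intro E
    by_cases hE : ∀ p ∈ E, p.Prime
    · obtain ⟨h, h1⟩ := hb_res (MM E) (MM_pos hE) (5 * kc) (fun i => ((cl i : Fin 5) : ℕ))
      exact ⟨h, fun _ => h1⟩
    · exact ⟨fun _ => 0, fun h => absurd h hE⟩
  choose hs hhs using hex
  set EE : Finset (Finset ℕ) := ((Finset.range (y + 1)).filter Nat.Prime).powerset with hEE
  obtain ⟨H, hH⟩ : ∃ H, H = 1 + ∑ E ∈ EE, ∑ i, hs E i := ⟨_, rfl⟩
  have hH0 : 0 < H := by omega
  obtain ⟨K, hK⟩ : ∃ K, K = 32 * (5 * kc) ^ 2 + H := ⟨_, rfl⟩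
  obtain ⟨P, hP⟩ : ∃ P, P = primorial K := ⟨_, rfl⟩
  refine ⟨K + 8 * H * P * (300 * (5 * kc) ^ 2 * P + P + 3),
    1 / (8192 * ((5 * kc : ℕ) : ℝ) ^ 2 * H ^ 2 * P ^ 2), ?_, fun c hc N hN => ?_⟩
  · have h1 : 0 < P := by rw [hP]; exact primorial_pos K
    have h2 : 0 < 5 * kc := by omega
    have h1' : (0 : ℝ) < P := by exact_mod_cast h1
    have h2' : (0 : ℝ) < ((5 * kc : ℕ) : ℝ) := by exact_mod_cast h2
    have h3' : (0 : ℝ) < H := by exact_mod_cast hH0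
    positivity
  obtain ⟨E, hEdef⟩ : ∃ E : Finset ℕ, E = {p ∈ (Finset.range (y + 1)).filter Nat.Prime |
    p ∣ c.natAbs} := ⟨_, rfl⟩
  have hE : ∀ p ∈ E, p.Prime := by
    intro p hp
    rw [hEdef, mem_filter, mem_filter] at hp
    exact hp.1.2
  have hEc : ∀ p ∈ E, p ∣ c.natAbs := by
    intro p hp
    rw [hEdef, mem_filter] at hp
    exact hp.2
  have hEy : ∀ p : ℕ, p.Prime → p ≤ y → p ∣ c.natAbs → p ∈ E := by
    intro p hp h1 h2
    rw [hEdef, mem_filter, mem_filter, mem_range]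
    exact ⟨⟨by omega, hp⟩, h2⟩
  have hEE' : E ∈ EE := by
    rw [hEE, mem_powerset, hEdef]
    exact filter_subset _ _
  obtain ⟨hmono, hh0, hres, hdvd⟩ := hhs E hE
  have hhH : ∀ i, hs E i ≤ H := by
    intro i
    have h1 : hs E i ≤ ∑ i, hs E i :=
      single_le_sum (f := fun i => hs E i) (fun _ _ => Nat.zero_le _) (mem_univ i)
    have h2 : ∑ i, hs E i ≤ ∑ E ∈ EE, ∑ i, hs E i :=
      single_le_sum (f := fun E => ∑ i, hs E i) (fun _ _ => Nat.zero_le _) hEE'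
    omega
  obtain ⟨h, hh⟩ : ∃ h, h = hs E := ⟨_, rfl⟩
  rw [← hh] at hmono hh0 hres hdvd hhH
  have hc0 : 0 < c.natAbs := Int.natAbs_pos.2 hc
  have hkK : 5 * kc ≤ K := by
    rw [hK]
    nlinarith [Nat.zero_le kc, Nat.zero_le (kc * kc)]
  have hMC : ∀ p : ℕ, p.Prime → p ∣ MM E → p ∣ c.natAbs :=
    fun p hp h => hEc p ((MM_prime hE hp).1 h)
  -- positivity of the quotients
  have hquot : ∀ i j, i < j → 0 < h j / cf c.natAbs (h j - h i) ∧
      0 < h i / cf c.natAbs (h j - h i) := by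
    intro i j hlt
    have h1 := hmono hlt
    have h2 : 0 < h j - h i := by omega
    have h3 : cf c.natAbs (h j - h i) ∣ h i :=
      (cf_dvd_cf hc0 h2 hMC).trans (hdvd i j hlt)
    have h4 : cf c.natAbs (h j - h i) ≤ h j - h i := Nat.le_of_dvd h2 (cf_dvd _ _)
    exact ⟨Nat.div_pos (by omega) (cf_pos h2), Nat.div_pos (Nat.le_of_dvd (hh0 i) h3) (cf_pos h2)⟩
  have hcs : ∀ i j, i < j → cl i ≠ cl j → cs (MM E) (h j - h i) ≤ 4 := by
    intro i j hlt hcl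
    refine cs_diff_le hE (hmono hlt) ?_ ?_ ?_ (hres i) (hres j)
    · have := (cl i).isLt
      omega
    · have := (cl j).isLt
      omega
    · exact fun h => hcl (Fin.ext h)
  have hGT : GoodY y K c N ⊆
      GoodY y (K + 8 * H * P * (300 * (5 * kc) ^ 2 * P + P + 3)) c N := by
    intro ab hab
    rw [GoodY, mem_filter] at hab ⊢
    obtain ⟨h1, t₁, t₂, h2, h3, h4, h5, h6⟩ := hab
    exact ⟨h1, t₁, t₂, h2, h3, h4, h5.trans (Nat.le_add_right _ _), h6⟩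
  refine (count_core (k := 5 * kc) (by omega) hH0 hK hP hc hN (GoodY y K c N)
    (fun i j A₁ A₂ => cl i ≠ cl j ∧
      InfSol (cf c.natAbs (h i) * A₁) (cf c.natAbs (h j) * A₂) (c * h i - c * h j))
    ?_ ?_).trans (by exact_mod_cast card_le_card hGT)
  · intro A hA0 hAK hAc hAA
    obtain ⟨i, j, hij, hs⟩ := hmt (fun i => cf c.natAbs (h i) * A i) (fun i => c * h i)
      (fun i => Nat.mul_pos (cf_pos (hh0 i)) (hA0 i))
      (by
        intro i j hij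
        have h1 : (h i : ℤ) = h j := mul_left_cancel₀ hc hij
        exact hmono.injective (by exact_mod_cast h1))
      (fun p hp => r1c_local (K := K) hkK h hh0
        (fun i => (hhH i).trans (by omega)) hmono.injective c hc A hA0 hAK hAc hAA p hp)
    exact ⟨i, j, fun h => hij (by rw [h]), hij, hs⟩
  · intro i j hij
    by_cases hcl : cl i = cl j
    · exact ⟨id, Function.injective_id, fun _ _ _ _ _ _ _ _ _ h => absurd hcl h.1⟩
    rcases lt_or_gt_of_ne hij with hlt | hlt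
    · obtain ⟨hq1, hq2⟩ := hquot i j hlt
      refine ⟨_, map_inj' (cf_pos (C := c.natAbs) hq1) (cf_pos (C := c.natAbs) hq2), ?_⟩
      rintro A₁ A₂ hA₁ hA₂ hAK₁ hAK₂ hAA hN₁ hN₂ ⟨-, hs⟩
      refine pair_good hc hE hEc hEy (hmono hlt) (hh0 i) (hdvd i j hlt) (hcs i j hlt hcl)
        ((hhH j).trans (by omega)) hA₁ hA₂ hAK₁ hAK₂ hAA ((Nat.mul_le_mul_right _ (hhH i)).trans hN₁)
        ((Nat.mul_le_mul_right _ (hhH j)).trans hN₂) ?_
      have h1 := hs.swap'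
      rwa [neg_sub] at h1
    · obtain ⟨hq1, hq2⟩ := hquot j i hlt
      refine ⟨_, map_inj (cf_pos (C := c.natAbs) hq1) (cf_pos (C := c.natAbs) hq2), ?_⟩
      rintro A₁ A₂ hA₁ hA₂ hAK₁ hAK₂ hAA hN₁ hN₂ ⟨-, hs⟩
      exact pair_good hc hE hEc hEy (hmono hlt) (hh0 j) (hdvd j i hlt)
        (hcs j i hlt (fun h => hcl h.symm))
        ((hhH i).trans (by omega)) hA₂ hA₁ hAK₂ hAK₁ hAA.symm
        ((Nat.mul_le_mul_right _ (hhH j)).trans hN₂) ((Nat.mul_le_mul_right _ (hhH i)).trans hN₁) hs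

end Pool.Agent.helper25.FB
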