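import Pool.Agent.helper66.FB.Spec2

/-!
TS: tightness at scale `s` (assembly of the parameters)
-/

set_option autoImplicit false

open scoped BigOperators Topology
open Filter MeasureTheory

namespace Pool.Agent.helper66.FB

open Finset
open Pool.Agent.helper72.UT (IsFor dep pth rt fors Reg lz PathTo)
open Pool.Agent.helper20.HP (ind HW W Par cc run lel lst lazyP tmix ustE height vol Setup CZ CP IsKer Zq)
open Pool.Agent.helper90.FN (EF glue dn sk avJ Hit BGoal)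

variable {V : Type} [Fintype V] [DecidableEq V]

theorem TS_ind_nonneg (p : Prop) : 0 ≤ ind p := by
  unfold ind
  split_ifs <;> norm_num

theorem TS_ind_le_one (p : Prop) : ind p ≤ 1 := by
  unfold ind
  split_ifs <;> norm_num

theorem TS_ind_mono {p q : Prop} (h : p → q) : ind p ≤ ind q := by
  unfold ind
  split_ifs with h1 h2 h2
  · exact le_rfl
  · exact absurd (h h1) h2
  · norm_num
  · exact le_rfl

theorem TS_W_nonneg (K : HW V) (k : ℕ) : ∀ (x : V) (f : List V → ℝ), (∀ l, 0 ≤ f l) →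
    0 ≤ W K k x f := by
  induction k with
  | zero => intro x f hf; exact hf []
  | succ k ih =>
    intro x f hf
    change 0 ≤ ∑ y, K.p x y * W K k y (fun l => f (y :: l))
    exact Finset.sum_nonneg fun y _ => mul_nonneg (K.nonneg x y) (ih y _ fun l => hf _)

theorem TS_Q_nonneg (K : HW V) (D : Finset V) (m : ℕ) : 0 ≤ Q K D m := by
  unfold Q
  exact div_nonneg (Finset.sum_nonneg fun x _ => TS_W_nonneg K m x _ fun l => TS_ind_nonneg _)
    (Nat.cast_nonneg _)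

theorem TS_EF_mono (G : SimpleGraph V) (B : Finset V) (F F' : (V → V) → ℝ)
    (h : ∀ f, F f ≤ F' f) : EF G B F ≤ EF G B F' := by
  unfold EF
  exact div_le_div_of_nonneg_right (Finset.sum_le_sum fun f _ => h f) (Nat.cast_nonneg _)

theorem TS_EF_const (G : SimpleGraph V) (B : Finset V) (c : ℝ) (hc : 0 ≤ c)
    (F : (V → V) → ℝ) (h : ∀ f, F f ≤ c) : EF G B F ≤ c := by
  unfold EF
  rcases Nat.eq_zero_or_pos (fors G B).card with h0 | h0
  · rw [h0, Nat.cast_zero, div_zero]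
    exact hc
  · rw [div_le_iff₀ (by exact_mod_cast h0)]
    calc ∑ f ∈ fors G B, F f ≤ ∑ f ∈ fors G B, c := Finset.sum_le_sum fun f _ => h f
      _ = c * ((fors G B).card : ℝ) := by rw [Finset.sum_const, nsmul_eq_mul, mul_comm]

theorem TS_EF_sum (G : SimpleGraph V) (B : Finset V) (F : V → (V → V) → ℝ) :
    EF G B (fun f => ∑ v, F v f) = ∑ v, EF G B (F v) := by
  unfold EF
  rw [Finset.sum_comm, Finset.sum_div]

theorem TS_EF_compl (G : SimpleGraph V) (B : Finset V) (p q : (V → V) → Prop)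
    (h : ∀ f, p f → ¬ q f) :
    EF G B (fun f => ind (p f)) ≤ 1 - EF G B (fun f => ind (q f)) := by
  have h1 : EF G B (fun f => ind (p f)) + EF G B (fun f => ind (q f)) =
      EF G B (fun f => ind (p f) + ind (q f)) := by
    unfold EF
    rw [← add_div, ← Finset.sum_add_distrib]
  have h2 : EF G B (fun f => ind (p f) + ind (q f)) ≤ 1 := by
    refine TS_EF_const G B 1 zero_le_one _ fun f => ?_
    have h3 := h f
    unfold ind
    by_cases hp : p f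
    · rw [if_pos hp, if_neg (h3 hp)]
      norm_num
    · rw [if_neg hp]
      split_ifs <;> norm_num
  linarith

/-- natural division -/
theorem TS_div (L q : ℕ) (hq : 0 < q) (h : q ≤ L) :
    1 ≤ L / q ∧ ((L / q : ℕ) : ℝ) * q ≤ L ∧ (L : ℝ) ≤ 2 * q * ((L / q : ℕ) : ℝ) := by
  have h1 : 1 ≤ L / q := Nat.div_pos h hq
  refine ⟨h1, ?_, ?_⟩
  · exact_mod_cast Nat.div_mul_le_self L q
  · have h2 : L < q * (L / q + 1) := Nat.lt_mul_div_succ L hq
    have h3 : L ≤ 2 * q * (L / q) := by nlinarith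
    exact_mod_cast h3

/-- numbers -/
structure TSn (n L s h₀ : ℕ) : Prop where
  L1 : (16 : ℝ) ≤ L
  nL : (L : ℝ) * L ≤ n
  nU : (n : ℝ) ≤ 4 * (L * L)
  s2 : (2 : ℝ) ≤ s
  h1 : (1 : ℝ) ≤ h₀
  hL : 16 * (h₀ : ℝ) ≤ L
  sL : (s : ℝ) ^ 64 * h₀ ≤ L
  L1n : 16 ≤ L
  s2n : 2 ≤ s
  h1n : 1 ≤ h₀
  sLn : s ^ 64 ≤ L

theorem TS_nums (G : SimpleGraph V) (d : ℕ) (K : HW V) (θ : ℝ) (h₀ : ℕ) (hS : Std G d K θ h₀)
    (s : ℕ) (hs : 2 ≤ s) (hsL : s ^ 64 * h₀ ≤ Nat.sqrt (Fintype.card V)) :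
    TSn (Fintype.card V) (Nat.sqrt (Fintype.card V)) s h₀ := by
  have h1 := hS.par.h_pos
  have h2 := hS.par.h_le
  have h3 : 16 ≤ Nat.sqrt (Fintype.card V) := by omega
  have h4 : Nat.sqrt (Fintype.card V) * Nat.sqrt (Fintype.card V) ≤ Fintype.card V :=
    Nat.sqrt_le (Fintype.card V)
  have h5 : Fintype.card V < (Nat.sqrt (Fintype.card V) + 1) * (Nat.sqrt (Fintype.card V) + 1) :=
    Nat.lt_succ_sqrt (Fintype.card V)
  have h6 : Fintype.card V ≤ 4 * (Nat.sqrt (Fintype.card V) * Nat.sqrt (Fintype.card V)) := by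
    nlinarith
  have h7 : s ^ 64 ≤ Nat.sqrt (Fintype.card V) := le_trans (Nat.le_mul_of_pos_right _ h1) hsL
  refine ⟨by exact_mod_cast h3, by exact_mod_cast h4, by exact_mod_cast h6, by exact_mod_cast hs,
    by exact_mod_cast h1, by exact_mod_cast h2, by exact_mod_cast hsL, h3, hs, h1, h7⟩

theorem TS_T (L : ℕ) : ((L / 4 : ℕ) : ℝ) * 4 ≤ L ∧ (L : ℝ) ≤ 4 * (((L / 4 : ℕ) : ℝ) + 1) := by
  constructor
  · exact_mod_cast Nat.div_mul_le_self L 4
  · have h2 : L ≤ 4 * (L / 4 + 1) := by omega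
    exact_mod_cast h2

/-- step 1: the set `B` -/
theorem TS_step1 (hGB : GB_stmt) (hQE : QE_stmt) (hQH : QH_stmt) (θ : ℝ)
    (G : SimpleGraph V) (d : ℕ) (K : HW V) (h₀ : ℕ) (hS : Std G d K θ h₀)
    (s : ℕ) (hs : 2 ≤ s) (hsL : s ^ 64 * h₀ ≤ Nat.sqrt (Fintype.card V)) :
    ∃ B : Finset V, B.card = Nat.sqrt (Fintype.card V) / s ^ 40 ∧
      Hit K B (⌈385 * θ⌉₊ * s ^ 40 * Nat.sqrt (Fintype.card V)) := by
  have hn := TS_nums G d K θ h₀ hS s hs hsL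
  have hθ := hS.par.one_le
  set n := Fintype.card V with hnV
  set L := Nat.sqrt n with hLV
  have hL0 : (0 : ℝ) < L := by linarith [hn.L1]
  have hn0 : (0 : ℝ) < n := by nlinarith [hn.nL, hn.L1]
  have hs0 : (0 : ℝ) < s := by linarith [hn.s2]
  have hs40 : (0 : ℝ) < (s : ℝ) ^ 40 := by positivity
  have hs40L : s ^ 40 ≤ L :=
    le_trans (Nat.pow_le_pow_right (by omega) (by norm_num)) hn.sLn
  obtain ⟨d1, d2, d3⟩ := TS_div L (s ^ 40) (by positivity) hs40L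
  push_cast at d2 d3
  obtain ⟨t1, t2⟩ := TS_T L
  set N := L / s ^ 40 with hN
  set T := L / 4 with hT
  have hN1 : (1 : ℝ) ≤ N := by exact_mod_cast d1
  have hNL : (N : ℝ) ≤ L := by
    have : (1 : ℝ) ≤ (s : ℝ) ^ 40 := one_le_pow₀ (by linarith [hn.s2])
    nlinarith
  have hNLn : N ≤ L := by exact_mod_cast hNL
  have h2N : 2 * N ≤ n := by
    have : (2 * N : ℝ) ≤ n := by nlinarith [hn.nL, hn.L1]
    exact_mod_cast this
  have hTL : T ≤ L := Nat.div_le_self _ _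
  obtain ⟨B, hB1, hB2⟩ := hGB V K θ h₀ hS.par N T h2N hTL
  refine ⟨B, hB1, ?_⟩
  have hT1 : (T : ℝ) + 1 ≤ L := by nlinarith [hn.L1]
  have hT0 : (0 : ℝ) < (T : ℝ) + 1 := by positivity
  -- energy
  have hEn : En K T B B ≤ 3 * θ * N := by
    refine hB2.trans ?_
    have h1 : 2 * (N : ℝ) ^ 2 * (T + 1) / (n : ℝ) ≤ 2 * N := by
      rw [div_le_iff₀ hn0]
      have h2 : (N : ℝ) * (T + 1) ≤ L * L := mul_le_mul hNL hT1 hT0.le hL0.le
      nlinarith [hn.nL]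
    nlinarith
  -- hitting probability
  have hq := hQE V K B T (by
    have : (0 : ℝ) < Fintype.card V := hn0
    exact_mod_cast this)
  rw [hB1] at hq
  have hQ0 := TS_Q_nonneg K B T
  set X : ℝ := ((T : ℝ) + 1) * N / n with hX
  have hX0 : 0 < X := by positivity
  have h3 : X ^ 2 ≤ Q K B T * (6 * θ * X) := by
    refine hq.trans (mul_le_mul_of_nonneg_left ?_ hQ0)
    calc 2 * ((T : ℝ) + 1) / (n : ℝ) * En K T B B ≤ 2 * ((T : ℝ) + 1) / (n : ℝ) * (3 * θ * N) :=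
          mul_le_mul_of_nonneg_left hEn (by positivity)
      _ = 6 * θ * X := by rw [hX]; ring
  have h4 : X ≤ 6 * θ * Q K B T := by
    have : X * X ≤ (6 * θ * Q K B T) * X := by nlinarith
    exact le_of_mul_le_mul_right this hX0
  have h5 : 1 / (32 * (s : ℝ) ^ 40) ≤ X := by
    rw [hX, div_le_div_iff₀ (by positivity) hn0]
    have h6 : (L : ℝ) * L ≤ (4 * ((T : ℝ) + 1)) * (2 * (s : ℝ) ^ 40 * N) :=
      mul_le_mul t2 d3 hL0.le (by positivity)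
    nlinarith [hn.nU]
  have hκ : 1 / (192 * θ * (s : ℝ) ^ 40) ≤ Q K B T := by
    have h7 : 1 / (192 * θ * (s : ℝ) ^ 40) = 1 / (32 * (s : ℝ) ^ 40) / (6 * θ) := by
      field_simp
      norm_num
    rw [h7, div_le_iff₀ (by linarith)]
    linarith
  refine hQH V K B T h₀ _ (1 / (192 * θ * (s : ℝ) ^ 40)) hn.h1n hS.low (by positivity) hκ ?_
  have h8 : 2 / (1 / (192 * θ * (s : ℝ) ^ 40)) + 1 ≤ 385 * θ * (s : ℝ) ^ 40 := by
    rw [div_div_eq_mul_div, div_one]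
    have : (1 : ℝ) ≤ θ * (s : ℝ) ^ 40 := by
      have : (1 : ℝ) ≤ (s : ℝ) ^ 40 := one_le_pow₀ (by linarith [hn.s2])
      nlinarith
    linarith
  have h9 : (h₀ : ℝ) + T ≤ L := by nlinarith [hn.hL, hn.L1]
  push_cast
  have h10 : 385 * θ ≤ (⌈385 * θ⌉₊ : ℝ) := Nat.le_ceil _
  calc ((h₀ : ℝ) + T) * (2 / (1 / (192 * θ * (s : ℝ) ^ 40)) + 1)
      ≤ L * (385 * θ * (s : ℝ) ^ 40) := mul_le_mul h9 h8 (by positivity) hL0.le
    _ = (385 * θ) * ((s : ℝ) ^ 40 * L) := by ring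
    _ ≤ (⌈385 * θ⌉₊ : ℝ) * ((s : ℝ) ^ 40 * L) := mul_le_mul_of_nonneg_right h10 (by positivity)
    _ = _ := by ring

theorem TS_half_pow (s : ℕ) (hs : 1 ≤ s) : ((1 : ℝ) / 2) ^ s ≤ 1 / s := by
  rw [one_div_pow]
  apply one_div_le_one_div_of_le
  · exact_mod_cast hs
  · exact_mod_cast (Nat.lt_two_pow_self (n := s)).le

theorem TS_exp (q : ℝ) (e : ℕ) (hq : 0 < q) (hq1 : q ≤ 1) (he : 0 < e) :
    (1 - q / 2) ^ e ≤ 2 / (q * e) := by
  have he' : (0 : ℝ) < e := by exact_mod_cast he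
  have h1 : 1 - q / 2 ≤ Real.exp (-(q / 2)) := by
    have := Real.add_one_le_exp (-(q / 2))
    linarith
  have h2 : (1 - q / 2) ^ e ≤ Real.exp (-(q / 2)) ^ e := pow_le_pow_left₀ (by linarith) h1 e
  refine h2.trans ?_
  rw [← Real.exp_nat_mul]
  have h3 : (e : ℝ) * -(q / 2) = -(q * e / 2) := by ring
  rw [h3, Real.exp_neg]
  have h4 : q * e / 2 ≤ Real.exp (q * e / 2) := by
    have := Real.add_one_le_exp (q * e / 2)
    linarith
  have h5 : 2 / (q * e) = (q * e / 2)⁻¹ := by rw [inv_div]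
  rw [h5]
  exact inv_anti₀ (by positivity) h4

/-- step 2: the states are short -/
theorem TS_step2 (hSN : SN_stmt) (θ : ℝ) (G : SimpleGraph V) (d : ℕ) (K : HW V) (h₀ : ℕ)
    (hS : Std G d K θ h₀) (s : ℕ) (hs : 2 ≤ s)
    (hsL : s ^ 64 * h₀ ≤ Nat.sqrt (Fintype.card V)) (C₁ : ℕ) (hC : θ ≤ C₁) (B : Finset V)
    (hB : Hit K B (C₁ * s ^ 40 * Nat.sqrt (Fintype.card V))) (N : ℕ) :
    kws K B N (fun y l => ind (2 * (s ^ 32 * Nat.sqrt (Fintype.card V)) < (run [y] l).length)) ≤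
      Fintype.card V * ((2 + 1024 * (C₁ : ℝ) ^ 2) / s) := by
  have hn := TS_nums G d K θ h₀ hS s hs hsL
  have hθ := hS.par.one_le
  set n := Fintype.card V with hnV
  set L := Nat.sqrt n with hLV
  have hL0 : (0 : ℝ) < L := by linarith [hn.L1]
  have hn0 : (0 : ℝ) < n := by nlinarith [hn.nL, hn.L1]
  have hs0 : (0 : ℝ) < s := by linarith [hn.s2]
  have hs1 : (1 : ℝ) ≤ s := by linarith [hn.s2]
  have hC1 : (1 : ℝ) ≤ C₁ := hθ.trans hC
  have hC0 : (0 : ℝ) < C₁ := by linarith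
  obtain ⟨t1, t2⟩ := TS_T L
  set T := L / 4 with hT
  have hT1 : (T : ℝ) + 1 ≤ L := by nlinarith [hn.L1]
  have hT0 : (0 : ℝ) < (T : ℝ) + 1 := by positivity
  set E : ℝ := 16 * (C₁ : ℝ) ^ 2 * (s : ℝ) ^ 83 * L with hE
  set q : ℝ := 1 / (512 * (C₁ : ℝ) ^ 2 * (s : ℝ) ^ 19) with hq
  have hE0 : 0 < E := by positivity
  have hq0 : 0 < q := by positivity
  have hq1 : q ≤ 1 := by
    rw [hq, div_le_one (by positivity)]
    have h1 : (1 : ℝ) ≤ (C₁ : ℝ) ^ 2 := one_le_pow₀ hC1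
    have h2 : (1 : ℝ) ≤ (s : ℝ) ^ 19 := one_le_pow₀ hs1
    nlinarith
  have hk1 : 1 ≤ s ^ 32 * L := Nat.mul_pos (by positivity) (by have := hn.L1n; omega)
  have hqb : q ≤ ((T : ℝ) + 1) * ((s ^ 32 * L : ℕ) : ℝ) ^ 2 / (2 * (n : ℝ) * E) := by
    rw [le_div_iff₀ (by positivity)]
    have h1 : q * (2 * (n : ℝ) * E) = n * ((s : ℝ) ^ 64 * L) / 16 := by
      rw [hq, hE]
      field_simp
      ring
    rw [h1]
    push_cast
    have h2 : (n : ℝ) * ((s : ℝ) ^ 64 * L) ≤ 4 * (L * L) * ((s : ℝ) ^ 64 * L) :=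
      mul_le_mul_of_nonneg_right hn.nU (by positivity)
    have h3 : (L : ℝ) * ((s : ℝ) ^ 32 * L) ^ 2 ≤ 4 * ((T : ℝ) + 1) * ((s : ℝ) ^ 32 * L) ^ 2 :=
      mul_le_mul_of_nonneg_right t2 (by positivity)
    have h4 : ((s : ℝ) ^ 32 * L) ^ 2 = (s : ℝ) ^ 64 * (L * L) := by ring
    rw [h4] at h3 ⊢
    nlinarith
  have h := hSN V K θ h₀ hS.par hS.low B _ hB s (s ^ 32 * L) T N E q hk1 hE0 hq0.le hq1 hqb
  refine h.trans ?_
  refine mul_le_mul_of_nonneg_left ?_ hn0.le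
  -- the three terms
  have e1 := TS_half_pow s (by omega)
  have e2 : 2 * ((s : ℝ) * ((C₁ * s ^ 40 * L : ℕ) : ℝ) + 1) *
      (θ + ((s : ℝ) * ((C₁ * s ^ 40 * L : ℕ) : ℝ) + 1) * ((T : ℝ) + 1) * (3 / (2 * (n : ℝ)))) / E ≤
        1 / s := by
    set J : ℝ := (s : ℝ) * ((C₁ * s ^ 40 * L : ℕ) : ℝ) + 1 with hJ
    have hs41 : (1 : ℝ) ≤ (s : ℝ) ^ 41 := one_le_pow₀ hs1
    have hJ1 : J ≤ 2 * C₁ * (s : ℝ) ^ 41 * L := by
      rw [hJ]
      push_cast
      have : (1 : ℝ) ≤ C₁ * (s : ℝ) ^ 41 * L := by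
        have h1 : (1 : ℝ) ≤ C₁ * (s : ℝ) ^ 41 := by nlinarith
        nlinarith [hn.L1]
      nlinarith
    have hJ0 : 0 < J := by positivity
    have h2 : J * ((T : ℝ) + 1) * (3 / (2 * (n : ℝ))) ≤ 3 * C₁ * (s : ℝ) ^ 41 := by
      have h3 : J * ((T : ℝ) + 1) ≤ (2 * C₁ * (s : ℝ) ^ 41 * L) * L :=
        mul_le_mul hJ1 hT1 hT0.le (by positivity)
      have h4 : (2 * C₁ * (s : ℝ) ^ 41 * L) * L ≤ 2 * C₁ * (s : ℝ) ^ 41 * n := by
        have := hn.nL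
        have h5 : (0 : ℝ) ≤ 2 * C₁ * (s : ℝ) ^ 41 := by positivity
        nlinarith
      calc J * ((T : ℝ) + 1) * (3 / (2 * (n : ℝ)))
          ≤ (2 * C₁ * (s : ℝ) ^ 41 * n) * (3 / (2 * (n : ℝ))) :=
            mul_le_mul_of_nonneg_right (h3.trans h4) (by positivity)
        _ = _ := by field_simp
    have h3 : θ + J * ((T : ℝ) + 1) * (3 / (2 * (n : ℝ))) ≤ 4 * C₁ * (s : ℝ) ^ 41 := by
      have : θ ≤ C₁ * (s : ℝ) ^ 41 := by nlinarith
      linarith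
    rw [div_le_div_iff₀ hE0 hs0]
    calc 2 * J * (θ + J * ((T : ℝ) + 1) * (3 / (2 * (n : ℝ)))) * s
        ≤ 2 * (2 * C₁ * (s : ℝ) ^ 41 * L) * (4 * C₁ * (s : ℝ) ^ 41) * s := by
          refine mul_le_mul_of_nonneg_right ?_ hs0.le
          refine mul_le_mul ?_ h3 (by positivity) (by positivity)
          linarith
      _ = 1 * E := by rw [hE]; ring
  have e3 : (1 - q / 2) ^ (s ^ 32 * L / (h₀ + T)) ≤ 1024 * (C₁ : ℝ) ^ 2 / s := by
    have h9 : h₀ + T ≤ L := by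
      have h1 := hn.L1n
      have h2 : 16 * h₀ ≤ L := by exact_mod_cast hn.hL
      omega
    have he : s ^ 32 ≤ s ^ 32 * L / (h₀ + T) := by
      rw [Nat.le_div_iff_mul_le (by have := hn.h1n; omega)]
      exact Nat.mul_le_mul_left _ h9
    have he0 : 0 < s ^ 32 * L / (h₀ + T) := lt_of_lt_of_le (by positivity) he
    refine (TS_exp q _ hq0 hq1 he0).trans ?_
    have he' : ((s : ℝ)) ^ 32 ≤ ((s ^ 32 * L / (h₀ + T) : ℕ) : ℝ) := by exact_mod_cast he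
    calc 2 / (q * ((s ^ 32 * L / (h₀ + T) : ℕ) : ℝ)) ≤ 2 / (q * (s : ℝ) ^ 32) := by
          apply div_le_div_of_nonneg_left (by norm_num) (by positivity)
          exact mul_le_mul_of_nonneg_left he' hq0.le
      _ = 1024 * (C₁ : ℝ) ^ 2 / (s : ℝ) ^ 13 := by
          rw [hq]
          field_simp
          ring
      _ ≤ 1024 * (C₁ : ℝ) ^ 2 / s := by
          apply div_le_div_of_nonneg_left (by positivity) hs0
          calc (s : ℝ) = (s : ℝ) ^ 1 := by ring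
            _ ≤ (s : ℝ) ^ 13 := pow_le_pow_right₀ hs1 (by norm_num)
  have e4 : (2 + 1024 * (C₁ : ℝ) ^ 2) / (s : ℝ) = 1 / s + 1 / s + 1024 * (C₁ : ℝ) ^ 2 / s := by
    ring
  rw [e4]
  linarith

end Pool.Agent.helper66.FB
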